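import Mathlib

/-!
# Sums of numbers with dense divisors
-/

namespace Pool.Agent.Helper80.GH2

/-- Dense divisors. -/
def D2 (m : ℕ) : Prop := ∀ d, 2 ≤ d → d ≤ m → ∃ M, M ∣ m ∧ d ≤ M ∧ M + 2 ≤ 2 * d

lemma D2.mul {D q : ℕ} (h : D2 D) (hq : 1 ≤ q) (hqD : q ≤ 2 * D) : D2 (D * q) := by
  intro d hd hdm
  by_cases h1 : d ≤ D
  · obtain ⟨M, h2, h3, h4⟩ := h d hd h1
    exact ⟨M, h2.mul_right q, h3, h4⟩
  by_cases h2 : d ≤ q
  · exact ⟨q, dvd_mul_left q D, h2, by omega⟩
  -- `q < d ≤ D q`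
  obtain ⟨e, he⟩ : ∃ e, e = (d + q - 1) / q := ⟨_, rfl⟩
  have h3 : d ≤ e * q := by
    have h4 := Nat.lt_div_mul_add (a := d + q - 1) hq
    rw [← he] at h4
    omega
  have h5 : e * q ≤ d + q - 1 := by
    rw [he]
    exact Nat.div_mul_le_self _ _
  have h6 : 2 ≤ e := by
    by_contra h7
    have h8 : e * q ≤ 1 * q := Nat.mul_le_mul_right q (by omega)
    omega
  have h7 : e ≤ D := by
    by_contra h8
    have h9 : (D + 1) * q ≤ e * q := Nat.mul_le_mul_right q (by omega)
    have h10 : (D + 1) * q = D * q + q := by ring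
    omega
  obtain ⟨M, h8, h9, h10⟩ := h e h6 h7
  refine ⟨M * q, Nat.mul_dvd_mul_right h8 q, h3.trans (Nat.mul_le_mul_right q h9), ?_⟩
  have h11 : (M + 2) * q ≤ 2 * e * q := Nat.mul_le_mul_right q h10
  have h12 : (M + 2) * q = M * q + 2 * q := by ring
  have h13 : 2 * e * q = 2 * (e * q) := by ring
  omega

lemma D2.two_pow (k : ℕ) : D2 (2 ^ k) := by
  induction k with
  | zero =>
    intro d hd hd'
    simp at hd'
    omega
  | succ k ih =>
    rw [pow_succ]
    exact ih.mul (by norm_num) (by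
      have : 0 < 2 ^ k := by positivity
      omega)

lemma D2.two_mul_three_pow (b : ℕ) : D2 (2 * 3 ^ b) := by
  induction b with
  | zero => simpa using D2.two_pow 1
  | succ b ih =>
    rw [pow_succ, ← mul_assoc]
    exact ih.mul (by norm_num) (by
      have : 0 < 3 ^ b := by positivity
      omega)

/-- Odd numbers with dense divisors. -/
lemma odd_dense (a : ℕ) : ∀ d, 2 ≤ d → d ≤ 5 * 3 ^ a → ∃ M, M ∣ 5 * 3 ^ (a + 1) ∧ d ≤ M ∧
    M + 1 ≤ 2 * d := by
  induction a with
  | zero =>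
    intro d hd hd'
    simp at hd'
    by_cases h : d ≤ 3
    · exact ⟨3, by norm_num, h, by omega⟩
    · exact ⟨5, by norm_num, by omega, by omega⟩
  | succ a ih =>
    intro d hd hd'
    have h3 : (3 : ℕ) ^ (a + 1) = 3 * 3 ^ a := pow_succ' 3 a
    have h4 : (3 : ℕ) ^ (a + 2) = 9 * 3 ^ a := by rw [pow_succ', h3]; ring
    by_cases h : d ≤ 5 * 3 ^ a
    · obtain ⟨M, h1, h2⟩ := ih d hd h
      refine ⟨M, h1.trans ?_, h2⟩
      exact mul_dvd_mul_left 5 (pow_dvd_pow 3 (by omega))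
    by_cases h' : d ≤ 9 * 3 ^ a
    · refine ⟨3 ^ (a + 2), dvd_mul_left _ _, by omega, by omega⟩
    · exact ⟨5 * 3 ^ (a + 1), mul_dvd_mul_left 5 (pow_dvd_pow 3 (by omega)), hd', by omega⟩

lemma exists_residue (x u s N : ℕ) (hx : 0 < x) (hu : Nat.Coprime u x) :
    ∃ q, s ≤ q ∧ q < s + x ∧ u * q ≡ N [MOD x] := by
  obtain ⟨c, hc⟩ : ∃ c, u * c ≡ N [MOD x] := by
    obtain ⟨v, _, hv⟩ := Nat.exists_mul_mod_eq_of_coprime N hu hx.ne'
    exact ⟨v, hv⟩
  refine ⟨s + ((c + x * s - s) % x), by omega, by have := Nat.mod_lt (c + x * s - s) hx; omega, ?_⟩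
  have h1 : s ≤ x * s := Nat.le_mul_of_pos_left s hx
  have h2 : s + ((c + x * s - s) % x) ≡ c [MOD x] := by
    have h3 : (c + x * s - s) % x ≡ c + x * s - s [MOD x] := Nat.mod_modEq _ _
    have h4 := h3.add_left s
    have h5 : s + (c + x * s - s) = c + x * s := by omega
    rw [h5] at h4
    exact h4.trans (by rw [Nat.ModEq]; simp)
  exact (h2.mul_left u).trans hc

/-- The representation of the numbers. -/
lemma numbers (P : ℕ → Prop) (α : ℕ) (hα : 1 ≤ α)
    (h2 : ∀ m, (∀ d, 2 ≤ d → d ≤ α → ∃ M, M ∣ m ∧ d ≤ M ∧ M + 2 ≤ 2 * d) → 2 * α ≤ m → P m)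
    (h1 : ∀ m, (∀ d, 2 ≤ d → d ≤ α → ∃ M, M ∣ m ∧ d ≤ M ∧ M + 1 ≤ 2 * d) → 3 * α ≤ m → P m)
    (hadd : ∀ a b, P a → P b → P (a + b)) (n : ℕ) :
    (Even n → 10 * α ≤ n → P n) ∧ (20 * α ≤ n → P n) := by
  have heven : ∀ n, Even n → 10 * α ≤ n → P n := by
    intro n hn hnα
    -- the power of two
    have hex : ∃ k, 2 * α ≤ 4 ^ k := ⟨2 * α, (Nat.lt_pow_self (by norm_num)).le⟩
    obtain ⟨k, hk, hkmin⟩ : ∃ k, 2 * α ≤ 4 ^ k ∧ ∀ j < k, ¬ 2 * α ≤ 4 ^ j :=
      ⟨Nat.find hex, Nat.find_spec hex, fun j hj => Nat.find_min hex hj⟩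
    have hk1 : 1 ≤ k := by
      by_contra h
      have h3 : k = 0 := by omega
      rw [h3] at hk
      simp at hk
      omega
    obtain ⟨k', rfl⟩ : ∃ k', k = k' + 1 := ⟨k - 1, by omega⟩
    have hk3 := hkmin k' (by omega)
    -- the power of three
    have hexb : ∃ b, 2 * α ≤ 4 * 9 ^ b := ⟨2 * α, by
      have := (Nat.lt_pow_self (a := 9) (n := 2 * α) (by norm_num)).le
      omega⟩
    obtain ⟨b, hb, hbmin⟩ : ∃ b, 2 * α ≤ 4 * 9 ^ b ∧ ∀ j < b, ¬ 2 * α ≤ 4 * 9 ^ j :=
      ⟨Nat.find hexb, Nat.find_spec hexb, fun j hj => Nat.find_min hexb hj⟩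
    have hb3 : 4 * 9 ^ b < 9 * (2 * α) := by
      rcases Nat.eq_zero_or_pos b with h | h
      · rw [h]
        omega
      · have h3 := hbmin (b - 1) (by omega)
        have h4 : 9 ^ b = 9 * 9 ^ (b - 1) := by
          rw [← pow_succ']
          congr 1
          omega
        omega
    obtain ⟨x, hx⟩ : ∃ x, x = 2 ^ k' := ⟨_, rfl⟩
    obtain ⟨z, hz⟩ : ∃ z, z = 3 ^ b := ⟨_, rfl⟩
    have hx0 : 0 < x := hx ▸ by positivity
    have hz0 : 0 < z := hz ▸ by positivity
    have hx2 : (2 * x) * (2 * x) = 4 ^ (k' + 1) := by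
      rw [hx, ← pow_succ', ← mul_pow]
      norm_num
    have hx2' : x * x = 4 ^ k' := by
      rw [hx, ← mul_pow]
      norm_num
    have hz2 : z * z = 9 ^ b := by
      rw [hz, ← mul_pow]
      norm_num
    have hL1 : 2 * α ≤ (2 * x) * (2 * x) := by rw [hx2]; exact hk
    have hL2 : x * x < 2 * α := by rw [hx2']; omega
    have hL3 : 2 * α ≤ (2 * z) * (2 * z) := by
      have : (2 * z) * (2 * z) = 4 * (z * z) := by ring
      rw [this, hz2]
      exact hb
    have hL4 : 4 * (z * z) < 9 * (2 * α) := by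
      rw [hz2]
      exact hb3
    have hD2x : D2 (2 * x) := by
      rw [hx, ← pow_succ']
      exact D2.two_pow _
    have hD2z : D2 (2 * z) := by
      rw [hz]
      exact D2.two_mul_three_pow _
    -- every multiple of `2 x`
    have hQ : ∀ Q, 2 * α ≤ 2 * x * Q → P (2 * x * Q) := by
      intro Q
      induction Q using Nat.strong_induction_on with
      | _ Q ih =>
        intro hQ
        have hQ1 : 1 ≤ Q := by
          by_contra h
          have h3 : Q = 0 := by omega
          rw [h3, mul_zero] at hQ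
          omega
        by_cases hQx : Q ≤ 2 * (2 * x)
        · exact h2 _ (fun d hd hd' => (hD2x.mul hQ1 hQx) d hd (by omega)) hQ
        · have h3 : 2 * x * Q = 2 * x * (2 * x) + 2 * x * (Q - 2 * x) := by
            rw [← mul_add]
            congr 1
            omega
          rw [h3]
          apply hadd
          · exact ih (2 * x) (by omega) hL1
          · apply ih (Q - 2 * x) (by omega)
            have h4 : 2 * x * (2 * x) ≤ 2 * x * (Q - 2 * x) := Nat.mul_le_mul_left _ (by omega)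
            omega
    -- the other summand
    obtain ⟨n', hn'⟩ := hn
    obtain ⟨s, hs⟩ : ∃ s, s = (2 * α + 2 * z - 1) / (2 * z) := ⟨_, rfl⟩
    have hs1 : 2 * α ≤ 2 * z * s := by
      have h4 := Nat.lt_div_mul_add (a := 2 * α + 2 * z - 1) (b := 2 * z) (by omega)
      rw [← hs] at h4
      have h5 : s * (2 * z) = 2 * z * s := mul_comm _ _
      omega
    have hs2 : 2 * z * s ≤ 2 * α + 2 * z - 1 := by
      rw [hs]
      exact Nat.mul_div_le _ _
    have hs3 : s ≤ 2 * z := by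
      by_contra h
      have h3 : 2 * z * (2 * z + 1) ≤ 2 * z * s := Nat.mul_le_mul_left _ (by omega)
      have h4 : 2 * z * (2 * z + 1) = 2 * z * (2 * z) + 2 * z := by ring
      omega
    have hco : Nat.Coprime z x := by
      rw [hx, hz]
      exact Nat.Coprime.pow _ _ (by norm_num)
    obtain ⟨q, hq1, hq2, hq3⟩ := exists_residue x z s n' hx0 hco
    have hxz : x ≤ 2 * z := by
      by_contra h
      have h3 : (2 * z) * (2 * z) ≤ x * x := Nat.mul_le_mul (by omega) (by omega)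
      omega
    have hs4 : 1 ≤ s := by
      by_contra h
      have h3 : s = 0 := by omega
      rw [h3, mul_zero] at hs1
      omega
    have hq4 : P (2 * z * q) := by
      refine h2 _ (fun d hd hd' => (hD2z.mul (by omega) (by omega)) d hd ?_) ?_
      · have h3 : 2 * z * s ≤ 2 * z * q := Nat.mul_le_mul_left _ hq1
        omega
      · have h3 : 2 * z * s ≤ 2 * z * q := Nat.mul_le_mul_left _ hq1
        omega
    have hxz2 : x * z < 3 * α := by
      by_contra h
      have h3 : (x * z) * (x * z) = (x * x) * (z * z) := by ring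
      have h4 : (3 * α) * (3 * α) ≤ (x * z) * (x * z) := Nat.mul_le_mul (by omega) (by omega)
      have h5 : (x * x) * (4 * (z * z)) < (2 * α) * (9 * (2 * α)) :=
        Nat.mul_lt_mul_of_lt_of_lt hL2 hL4
      have h6 : (x * x) * (4 * (z * z)) = 4 * ((x * x) * (z * z)) := by ring
      have h7 : (2 * α) * (9 * (2 * α)) = 4 * ((3 * α) * (3 * α)) := by ring
      omega
    have hbound : 2 * z * q < 8 * α := by
      have h3 : 2 * z * q ≤ 2 * z * (s + x - 1) := Nat.mul_le_mul_left _ (by omega)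
      have h4 : 2 * z * (s + x - 1) + 2 * z = 2 * z * s + 2 * (x * z) := by
        have h5 : s + x - 1 + 1 = s + x := by omega
        calc 2 * z * (s + x - 1) + 2 * z = 2 * z * (s + x - 1 + 1) := by ring
          _ = 2 * z * s + 2 * (x * z) := by rw [h5]; ring
      omega
    -- the rest is a multiple of `2 x`
    have hdiv : 2 * x ∣ n - 2 * z * q := by
      have h3 : n = 2 * n' := by omega
      have h4 : 2 * z * q ≤ n := by omega
      have h5 : z * q ≤ n' := by
        have : 2 * z * q = 2 * (z * q) := by ring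
        omega
      have h6 : x ∣ n' - z * q := (Nat.modEq_iff_dvd' h5).1 hq3
      have h7 : n - 2 * z * q = 2 * (n' - z * q) := by
        have : 2 * z * q = 2 * (z * q) := by ring
        omega
      rw [h7]
      exact mul_dvd_mul_left 2 h6
    obtain ⟨Q, hQe⟩ := hdiv
    have h3 := hQ Q (by omega)
    rw [← hQe] at h3
    have h4 := hadd _ _ h3 hq4
    have h5 : n - 2 * z * q + 2 * z * q = n := by omega
    rwa [h5] at h4
  refine ⟨heven n, fun hn => ?_⟩
  rcases Nat.even_or_odd n with h | h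
  · exact heven n h (by omega)
  -- an odd number
  have hex : ∃ a, 3 * α ≤ 5 * 3 ^ a := ⟨α, by
    have := (Nat.lt_pow_self (a := 3) (n := α) (by norm_num)).le
    omega⟩
  obtain ⟨a, ha, hamin⟩ : ∃ a, 3 * α ≤ 5 * 3 ^ a ∧ ∀ j < a, ¬ 3 * α ≤ 5 * 3 ^ j :=
    ⟨Nat.find hex, Nat.find_spec hex, fun j hj => Nat.find_min hex hj⟩
  have hP : P (5 * 3 ^ a) := by
    apply h1 _ _ ha
    intro d hd hd'
    rcases Nat.eq_zero_or_pos a with h3 | h3
    · rw [h3] at ha
      omega
    · obtain ⟨a', rfl⟩ : ∃ a', a = a' + 1 := ⟨a - 1, by omega⟩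
      apply odd_dense a' d hd
      rw [pow_succ] at ha
      omega
  have hlt : 5 * 3 ^ a < 9 * α := by
    rcases Nat.eq_zero_or_pos a with h3 | h3
    · rw [h3]
      omega
    · obtain ⟨a', rfl⟩ : ∃ a', a = a' + 1 := ⟨a - 1, by omega⟩
      have h4 := hamin a' (by omega)
      rw [pow_succ]
      omega
  have hodd : Odd (5 * 3 ^ a) := by
    apply Odd.mul
    · decide
    · exact Odd.pow (by decide)
  have heven' : Even (n - 5 * 3 ^ a) := by
    rw [Nat.even_sub (by omega)]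
    rw [← Nat.not_odd_iff_even, ← Nat.not_odd_iff_even]
    tauto
  have h3 := hadd _ _ (heven _ heven' (by omega)) hP
  have h4 : n - 5 * 3 ^ a + 5 * 3 ^ a = n := by omega
  rwa [h4] at h3

end Pool.Agent.Helper80.GH2
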