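import Pool.Agent.Helper80.GH2.Main
import Pool.Agent.Helper80.GH2.Numbers

/-!
# Trees with a small colour class
-/

namespace Pool.Agent.Helper80.GH2

open Finset Pool.Agent.Helper19.GH Pool.Agent.Helper80.GH

lemma decomposes_add {V : Type} (T : SimpleGraph V) (m₁ m₂ n : ℕ)
    (h₁ : Decomposes T (completeBipartiteGraph (Fin m₁) (Fin n)))
    (h₂ : Decomposes T (completeBipartiteGraph (Fin m₂) (Fin n))) :
    Decomposes T (completeBipartiteGraph (Fin (m₁ + m₂)) (Fin n)) := by
  obtain ⟨p, φ, hφ1, hφ2, hφ3⟩ := h₁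
  obtain ⟨q, ψ, hψ1, hψ2, hψ3⟩ := h₂
  let f : Fin m₁ ⊕ Fin n → Fin (m₁ + m₂) ⊕ Fin n := Sum.map (Fin.castAdd m₂) id
  let g : Fin m₂ ⊕ Fin n → Fin (m₁ + m₂) ⊕ Fin n := Sum.map (Fin.natAdd m₁) id
  have hf : Function.Injective f := Sum.map_injective.2
    ⟨Fin.castAdd_injective _ _, Function.injective_id⟩
  have hg : Function.Injective g := Sum.map_injective.2
    ⟨Fin.natAdd_injective _ _, Function.injective_id⟩
  have hfadj : ∀ x y, (completeBipartiteGraph (Fin m₁) (Fin n)).Adj x y →
      (completeBipartiteGraph (Fin (m₁ + m₂)) (Fin n)).Adj (f x) (f y) := by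
    rintro (x | x) (y | y) h <;> simp_all [completeBipartiteGraph, f]
  have hgadj : ∀ x y, (completeBipartiteGraph (Fin m₂) (Fin n)).Adj x y →
      (completeBipartiteGraph (Fin (m₁ + m₂)) (Fin n)).Adj (g x) (g y) := by
    rintro (x | x) (y | y) h <;> simp_all [completeBipartiteGraph, g]
  let Φ : Fin (p + q) → V → Fin (m₁ + m₂) ⊕ Fin n :=
    Fin.addCases (fun i u => f (φ i u)) (fun j u => g (ψ j u))
  have hΦl : ∀ i u, Φ (Fin.castAdd q i) u = f (φ i u) := fun i u => by
    simp only [Φ, Fin.addCases_left]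
  have hΦr : ∀ j u, Φ (Fin.natAdd p j) u = g (ψ j u) := fun j u => by
    simp only [Φ, Fin.addCases_right]
  have hfr : ∀ x b, f x = Sum.inr b ↔ x = Sum.inr b := by
    rintro (x | x) b <;> simp [f]
  have hgr : ∀ x b, g x = Sum.inr b ↔ x = Sum.inr b := by
    rintro (x | x) b <;> simp [g]
  have hfl : ∀ x a, f x = Sum.inl (Fin.castAdd m₂ a) ↔ x = Sum.inl a := by
    rintro (x | x) a
    · simp only [f, Sum.map_inl, Sum.inl.injEq]
      exact (Fin.castAdd_injective _ _).eq_iff
    · simp [f]
  have hgl : ∀ x a, g x = Sum.inl (Fin.natAdd m₁ a) ↔ x = Sum.inl a := by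
    rintro (x | x) a
    · simp only [g, Sum.map_inl, Sum.inl.injEq]
      exact (Fin.natAdd_injective _ _).eq_iff
    · simp [g]
  have hfl' : ∀ x a, f x ≠ Sum.inl (Fin.natAdd m₁ a) := by
    rintro (x | x) a h
    · simp only [f, Sum.map_inl, Sum.inl.injEq] at h
      have h1 := congrArg Fin.val h
      simp only [Fin.val_castAdd, Fin.val_natAdd] at h1
      have := x.2
      omega
    · simp [f] at h
  have hgl' : ∀ x a, g x ≠ Sum.inl (Fin.castAdd m₂ a) := by
    rintro (x | x) a h
    · simp only [g, Sum.map_inl, Sum.inl.injEq] at h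
      have h1 := congrArg Fin.val h
      simp only [Fin.val_castAdd, Fin.val_natAdd] at h1
      have := a.2
      omega
    · simp [g] at h
  have key : ∀ (a : Fin (m₁ + m₂)) (b : Fin n), ∃! i, ∃ u w, T.Adj u w ∧ Φ i u = Sum.inl a ∧
      Φ i w = Sum.inr b := by
    intro a b
    induction a using Fin.addCases with
    | left a =>
      obtain ⟨i, ⟨u, w, huw, h1, h2⟩, h3⟩ := hφ3 (Sum.inl a) (Sum.inr b)
        (by simp [completeBipartiteGraph])
      refine ⟨Fin.castAdd q i, ⟨u, w, huw, ?_, ?_⟩, ?_⟩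
      · rw [hΦl, hfl]
        exact h1
      · rw [hΦl, hfr]
        exact h2
      · rintro j ⟨u', w', huw', h4, h5⟩
        induction j using Fin.addCases with
        | left j =>
          rw [hΦl, hfl] at h4
          rw [hΦl, hfr] at h5
          rw [h3 j ⟨u', w', huw', h4, h5⟩]
        | right j =>
          rw [hΦr] at h4
          exact absurd h4 (hgl' _ _)
    | right a =>
      obtain ⟨i, ⟨u, w, huw, h1, h2⟩, h3⟩ := hψ3 (Sum.inl a) (Sum.inr b)
        (by simp [completeBipartiteGraph])
      refine ⟨Fin.natAdd p i, ⟨u, w, huw, ?_, ?_⟩, ?_⟩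
      · rw [hΦr, hgl]
        exact h1
      · rw [hΦr, hgr]
        exact h2
      · rintro j ⟨u', w', huw', h4, h5⟩
        induction j using Fin.addCases with
        | left j =>
          rw [hΦl] at h4
          exact absurd h4 (hfl' _ _)
        | right j =>
          rw [hΦr, hgl] at h4
          rw [hΦr, hgr] at h5
          rw [h3 j ⟨u', w', huw', h4, h5⟩]
  refine ⟨p + q, Φ, ?_, ?_, ?_⟩
  · intro i
    induction i using Fin.addCases with
    | left i =>
      intro u w h
      rw [hΦl, hΦl] at h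
      exact hφ1 i (hf h)
    | right i =>
      intro u w h
      rw [hΦr, hΦr] at h
      exact hψ1 i (hg h)
  · intro i u w huw
    induction i using Fin.addCases with
    | left i =>
      rw [hΦl, hΦl]
      exact hfadj _ _ (hφ2 i u w huw)
    | right i =>
      rw [hΦr, hΦr]
      exact hgadj _ _ (hψ2 i u w huw)
  · intro x y hxy
    rcases x with a | a <;> rcases y with b | b
    · simp [completeBipartiteGraph] at hxy
    · exact key a b
    · obtain ⟨i, ⟨u, w, huw, h1, h2⟩, h3⟩ := key b a
      refine ⟨i, ⟨w, u, huw.symm, h2, h1⟩, ?_⟩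
      rintro j ⟨u', w', huw', h1', h2'⟩
      exact h3 j ⟨w', u', huw'.symm, h2', h1'⟩
    · simp [completeBipartiteGraph] at hxy

/-- The theorem. -/
theorem small_class (V : Type) [Fintype V] (T : SimpleGraph V) (n : ℕ) (A : Finset V)
    (hT : T.IsTree) (hn : Fintype.card V = n + 1) (hA : ∀ u w, T.Adj u w → (u ∈ A ↔ w ∉ A))
    (hsmall : 20 * A.card ≤ n ∨ (Even n ∧ 10 * A.card ≤ n)) :
    Decomposes T (completeBipartiteGraph (Fin n) (Fin n)) := by
  classical
  rcases Nat.eq_zero_or_pos n with h0 | h0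
  · subst h0
    exact ⟨0, fun i => i.elim0, fun i => i.elim0, fun i => i.elim0, fun x => by
      rcases x with x | x <;> exact x.elim0⟩
  have hposdeg : ∀ v, 0 < T.degree v := degree_pos T n hT hn h0
  have hA1 : 1 ≤ A.card := by
    rw [Nat.one_le_iff_ne_zero, Ne, card_eq_zero]
    rintro rfl
    obtain ⟨v⟩ := hT.connected.nonempty
    have h1 := hposdeg v
    rw [← SimpleGraph.card_neighborFinset_eq_degree, card_pos] at h1
    obtain ⟨w, hw⟩ := h1
    rw [SimpleGraph.mem_neighborFinset] at hw
    have := hA v w hw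
    simp at this
  set B := Aᶜ with hB
  have hBA : Bᶜ = A := compl_compl A
  have hBadj : ∀ u w, T.Adj u w → (u ∈ B ↔ w ∉ B) := by
    intro u w huw
    rw [hB, mem_compl, mem_compl]
    have := hA u w huw
    tauto
  obtain ⟨hc1, hc2⟩ := card_leaves T hT hn h0 B hBadj
  rw [hBA] at hc2
  set K := B.filter (fun b => T.degree b ≠ 1) with hK
  have hKsum : ∑ b ∈ K, T.degree b + 2 ≤ 2 * A.card := by omega
  have hKcard : ∑ b ∈ K, (T.degree b - 1) + 1 ≤ A.card := by
    have h1 : 2 * ∑ b ∈ K, (T.degree b - 1) ≥ ∑ b ∈ K, T.degree b := by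
      rw [mul_sum]
      apply sum_le_sum
      intro b hb
      have h2 := (mem_filter.1 hb).2
      have h3 := hposdeg b
      omega
    -- count the edges
    have h2 := card_compl_add_card A
    rw [← hB, hn] at h2
    have h3 : K.card + (B.filter (fun b => ¬ T.degree b ≠ 1)).card = B.card :=
      card_filter_add_card_filter_not _
    have h4 : (B.filter (fun b => ¬ T.degree b ≠ 1)).card =
        (B.filter (fun b => T.degree b = 1)).card := by
      congr 1
      ext b
      rw [mem_filter, mem_filter, not_not]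
    rw [h4] at h3
    have h5 : ∑ b ∈ K, (T.degree b - 1) + K.card = ∑ b ∈ K, T.degree b := by
      rw [card_eq_sum_ones, ← sum_add_distrib]
      apply sum_congr rfl
      intro b _
      have := hposdeg b
      omega
    omega
  have hdegA : ∀ b ∈ B, T.degree b ≤ A.card := by
    intro b hb
    rw [← SimpleGraph.card_neighborFinset_eq_degree]
    apply card_le_card
    intro x hx
    rw [SimpleGraph.mem_neighborFinset] at hx
    have h1 := (hBadj b x hx).1 hb
    rw [hB, mem_compl, not_not] at h1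
    exact h1
  -- choice of the moduli
  have hchoose : ∀ (m c : ℕ), (∀ d, 2 ≤ d → d ≤ A.card → ∃ M, M ∣ m ∧ d ≤ M ∧ M + c ≤ 2 * d) →
      ∃ M : V → ℕ, ∀ b ∈ K, M b ∣ m ∧ T.degree b ≤ M b ∧ M b + c ≤ 2 * T.degree b := by
    intro m c h
    have h1 : ∀ b, ∃ M, b ∈ K → M ∣ m ∧ T.degree b ≤ M ∧ M + c ≤ 2 * T.degree b := by
      intro b
      by_cases hb : b ∈ K
      · have h2 := mem_filter.1 hb
        have h3 := hposdeg b
        obtain ⟨M, hM⟩ := h (T.degree b) (by omega) (hdegA b h2.1)
        exact ⟨M, fun _ => hM⟩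
      · exact ⟨0, fun h => absurd h hb⟩
    choose M hM using h1
    exact ⟨M, hM⟩
  have hα : 4 * Bᶜ.card ≤ n + 4 := by
    rw [hBA]
    omega
  obtain ⟨heven, hall⟩ := numbers
    (fun m => Decomposes T (completeBipartiteGraph (Fin m) (Fin n))) A.card hA1 (by
      intro m hm hmA
      obtain ⟨M, hM⟩ := hchoose m 2 hm
      refine main_mn V T m n B M hT hn hBadj ?_ ?_ hα
      · intro b hb hb1
        have := hM b (mem_filter.2 ⟨hb, hb1⟩)
        exact ⟨this.1, this.2.1, by omega⟩
      · change ∑ b ∈ K, M b ≤ m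
        have h1 : ∑ b ∈ K, M b ≤ ∑ b ∈ K, 2 * (T.degree b - 1) := by
          apply sum_le_sum
          intro b hb
          have := hM b hb
          omega
        rw [← mul_sum] at h1
        omega) (by
      intro m hm hmA
      obtain ⟨M, hM⟩ := hchoose m 1 hm
      refine main_mn V T m n B M hT hn hBadj ?_ ?_ hα
      · intro b hb hb1
        have := hM b (mem_filter.2 ⟨hb, hb1⟩)
        exact ⟨this.1, this.2.1, by omega⟩
      · change ∑ b ∈ K, M b ≤ m
        have h1 : ∑ b ∈ K, M b ≤ ∑ b ∈ K, 3 * (T.degree b - 1) := by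
          apply sum_le_sum
          intro b hb
          have := hM b hb
          have h2 := mem_filter.1 hb
          have h3 := hposdeg b
          omega
        rw [← mul_sum] at h1
        omega) (fun a b => decomposes_add T a b n) n
  rcases hsmall with h | ⟨h, h'⟩
  · exact hall h
  · exact heven h h'

end Pool.Agent.Helper80.GH2
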