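import Pool.Agent.Helper80.GH2.Phase2

/-!
# Labelling along an order
-/

namespace Pool.Agent.Helper80.GH2

open Finset Pool.Agent.Helper80.GH

variable {V : Type} [Fintype V] [DecidableEq V]

lemma labelling (r : V) (par : V → V) (d : V → ℕ) (hd : ∀ x, x ≠ r → d x = d (par x) + 1)
    (hr : Even (d r)) (K : Finset V) (hK : ∀ b ∈ K, ¬ Even (d b))
    (hKch : ∀ b ∈ K, (ch r par b).Nonempty)
    (hchK : ∀ b, ¬ Even (d b) → (ch r par b).Nonempty → b ∈ K) (M t : V → ℕ) (L : V → Finset V)
    (hcard : ∀ b ∈ K, (ch r par b).card + 1 + (L b).card = M b)
    (h2 : ∀ b ∈ K, 2 * (L b).card + 1 ≤ M b) (ix : V → ℕ)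
    (hix : ∀ x, Even (d x) → x ≠ r → ix (par (par x)) < ix x)
    (hinj : ∀ x y, Even (d x) → Even (d y) → ix x = ix y → x = y)
    (hL : ∀ b ∈ K, ∀ u ∈ L b, Even (d (par u)) ∧ ∃ y ∈ ch r par b, ix (par u) < ix y) (φ : ℕ) :
    ∃ f : V → ℕ, f r = φ ∧ ∀ b ∈ K, StarC r par (M b) (t b) (L b) f b := by
  classical
  have hne : ∀ b, ¬ Even (d b) → b ≠ r := by
    rintro b hb rfl
    exact hb hr
  have hpar : ∀ x, x ≠ r → (Even (d x) ↔ ¬ Even (d (par x))) := by
    intro x hx
    rw [hd x hx, Nat.even_add_one]
  have hche : ∀ b ∈ K, ∀ y ∈ ch r par b, Even (d y) ∧ y ≠ r ∧ par y = b := by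
    intro b hb y hy
    rw [mem_ch] at hy
    refine ⟨?_, hy.1, hy.2⟩
    rw [hpar y hy.1, hy.2]
    exact hK b hb
  have hpe : ∀ b ∈ K, Even (d (par b)) := by
    intro b hb
    have := hpar b (hne b (hK b hb))
    have := hK b hb
    tauto
  -- the last child
  have hlast : ∀ b, ∃ y, b ∈ K → y ∈ ch r par b ∧ ∀ y' ∈ ch r par b, ix y' ≤ ix y := by
    intro b
    by_cases hb : b ∈ K
    · obtain ⟨y, hy, h⟩ := exists_max_image (ch r par b) ix (hKch b hb)
      exact ⟨y, fun _ => ⟨hy, h⟩⟩
    · exact ⟨b, fun h => absurd h hb⟩
  choose la hla using hlast
  have hE : ∀ b, ∀ φ : ℕ, ∃ e : V → ℕ, b ∈ K → ∀ G : V → ℤ, ∃ (e' : V → ℕ) (κ : V → ℤ),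
      (∀ y ∈ (ch r par b).erase (la b), e' y = e y) ∧
      (∀ y ∈ ch r par b, t b ≤ e' y ∧ e' y < t b + M b) ∧ Set.InjOn e' (ch r par b) ∧
      (∀ y ∈ ch r par b, ¬ (e' y : ℤ) ≡ φ [ZMOD (M b : ℤ)]) ∧
      (∀ u ∈ L b, ∀ u' ∈ L b, κ u - G u ≡ κ u' - G u' [ZMOD (M b : ℤ)] → u = u') ∧
      (∀ u ∈ L b, ¬ κ u ≡ G u - t b [ZMOD (M b : ℤ)]) ∧
      ∀ w : ℤ, w ≡ φ - t b [ZMOD (M b : ℤ)] ∨
        (∃ y ∈ ch r par b, (e' y : ℤ) - t b ≡ w [ZMOD (M b : ℤ)]) ∨
        ∃ u ∈ L b, κ u ≡ w [ZMOD (M b : ℤ)] := by
    intro b φ
    by_cases hb : b ∈ K
    · have hl := hla b hb
      obtain ⟨e, he⟩ := two_phase2 (M b) (t b) φ (ch r par b) ((ch r par b).erase (la b))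
        (erase_subset _ _) (L b).card (hcard b hb) (by
          rw [card_erase_of_mem hl.1]
          have := card_pos.2 (hKch b hb)
          omega) (h2 b hb)
      exact ⟨e, fun _ => he (L b) rfl⟩
    · exact ⟨fun _ => 0, fun h => absurd h hb⟩
  choose E hE using hE
  have hixb : ∀ b ∈ K, ∀ y ∈ ch r par b, ix (par b) < ix y := by
    intro b hb y hy
    obtain ⟨h1, h2, h3⟩ := hche b hb y hy
    have := hix y h1 h2
    rwa [h3] at this
  have hrec : ∀ j : ℕ, ∃ f : V → ℕ, f r = φ ∧
      (∀ b ∈ K, ∀ y ∈ (ch r par b).erase (la b), ix y < j → f y = E b (f (par b)) y) ∧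
      ∀ b ∈ K, ix (la b) < j → StarC r par (M b) (t b) (L b) f b := by
    intro j
    induction j with
    | zero => exact ⟨fun _ => φ, rfl, fun _ _ _ _ h => absurd h (Nat.not_lt_zero _),
        fun _ _ h => absurd h (Nat.not_lt_zero _)⟩
    | succ j ih =>
      obtain ⟨f, hf1, hf2, hf3⟩ := ih
      by_cases hx : ∃ x, Even (d x) ∧ x ≠ r ∧ ix x = j
      · obtain ⟨x, hxe, hxr, hxj⟩ := hx
        -- the star of `x`
        have hb0odd : ¬ Even (d (par x)) := (hpar x hxr).1 hxe
        have hxch : x ∈ ch r par (par x) := mem_ch.2 ⟨hxr, rfl⟩
        have hb0 : par x ∈ K := hchK _ hb0odd ⟨x, hxch⟩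
        have hneq : ∀ y, Even (d y) → ix y < j → y ≠ x := by
          rintro y _ h rfl
          omega
        have hlt : ∀ y, Even (d y) → ix y < j + 1 → y ≠ x → ix y < j := by
          intro y hy h1 h2
          rcases (Nat.lt_succ_iff.1 h1).lt_or_eq with h | h
          · exact h
          · exact absurd (hinj y x hy hxe (h.trans hxj.symm)) h2
        by_cases hxl : x = la (par x)
        · obtain ⟨e', κ, h3, h4, h5, h6, h7, h8, h9⟩ := hE (par x) (f (par (par x))) hb0
            (fun u => f (par u))
          refine ⟨Function.update f x (e' x), ?_, ?_, ?_⟩
          · rw [Function.update_of_ne hxr.symm]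
            exact hf1
          · intro b hb y hy hyj
            obtain ⟨hye, hyr, hyb⟩ := hche b hb y (mem_of_mem_erase hy)
            have hyx : y ≠ x := by
              rintro rfl
              rw [← hyb] at hy
              exact (mem_erase.1 hy).1 hxl
            have hyj' := hlt y hye hyj hyx
            have hpb : par b ≠ x := hneq _ (hpe b hb)
              ((hixb b hb y (mem_of_mem_erase hy)).trans hyj')
            rw [Function.update_of_ne hyx, Function.update_of_ne hpb]
            exact hf2 b hb y hy hyj'
          · intro b hb hbj
            by_cases hbx : b = par x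
            · subst hbx
              have hch : ∀ y ∈ ch r par (par x), Function.update f x (e' x) y = e' y := by
                intro y hy
                by_cases hyx : y = x
                · rw [hyx, Function.update_self]
                · obtain ⟨hye, hyr, hyb⟩ := hche _ hb y hy
                  have hye' : y ∈ (ch r par (par x)).erase (la (par x)) := by
                    rw [← hxl]
                    exact mem_erase.2 ⟨hyx, hy⟩
                  have hyj : ix y < j := by
                    apply hlt y hye _ hyx
                    have h10 := (hla _ hb).2 y hy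
                    omega
                  rw [Function.update_of_ne hyx, h3 y hye', hf2 _ hb y hye' hyj]
              have hpb : par (par x) ≠ x := hneq _ (hpe _ hb) (by
                have := hixb _ hb x hxch
                omega)
              have hpu : ∀ u ∈ L (par x), Function.update f x (e' x) (par u) = f (par u) := by
                intro u hu
                obtain ⟨h10, y, hy, h11⟩ := hL _ hb u hu
                rw [Function.update_of_ne]
                apply hneq _ h10
                have h12 := (hla _ hb).2 y hy
                rw [← hxl] at h12
                omega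
              refine ⟨?_, ?_, ?_, κ, ?_, ?_, ?_⟩
              · intro y hy
                rw [hch y hy]
                exact h4 y hy
              · intro y hy y' hy' h
                rw [hch y hy, hch y' hy'] at h
                exact h5 hy hy' h
              · intro y hy
                rw [hch y hy, Function.update_of_ne hpb]
                exact h6 y hy
              · intro u hu u' hu' h
                rw [hpu u hu, hpu u' hu'] at h
                exact h7 u hu u' hu' h
              · intro u hu
                rw [hpu u hu]
                exact h8 u hu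
              · intro w
                rw [Function.update_of_ne hpb]
                rcases h9 w with h | ⟨y, hy, h⟩ | h
                · exact Or.inl h
                · refine Or.inr (Or.inl ⟨y, hy, ?_⟩)
                  rw [hch y hy]
                  exact h
                · exact Or.inr (Or.inr h)
            · -- another star
              have hl := hla b hb
              obtain ⟨hle, hlr, hlb⟩ := hche b hb _ hl.1
              have hlx : la b ≠ x := by
                intro h
                apply hbx
                rw [← hlb, h]
              have hlj := hlt _ hle hbj hlx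
              apply (hf3 b hb hlj).congr
              · intro y hy
                rw [Function.update_of_ne]
                apply hneq y (hche b hb y hy).1
                have := hl.2 y hy
                omega
              · rw [Function.update_of_ne]
                apply hneq _ (hpe b hb)
                have := hixb b hb _ hl.1
                omega
              · intro u hu
                obtain ⟨h10, y, hy, h11⟩ := hL b hb u hu
                rw [Function.update_of_ne]
                apply hneq _ h10
                have := hl.2 y hy
                omega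
        · -- `x` is not the last child
          refine ⟨Function.update f x (E (par x) (f (par (par x))) x), ?_, ?_, ?_⟩
          · rw [Function.update_of_ne hxr.symm]
            exact hf1
          · intro b hb y hy hyj
            obtain ⟨hye, hyr, hyb⟩ := hche b hb y (mem_of_mem_erase hy)
            have hpb : par b ≠ x := by
              by_cases hyx : y = x
              · have h10 := hixb b hb y (mem_of_mem_erase hy)
                rintro h
                rw [h, hyx] at h10
                omega
              · exact hneq _ (hpe b hb)
                  ((hixb b hb y (mem_of_mem_erase hy)).trans (hlt y hye hyj hyx))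
            by_cases hyx : y = x
            · subst hyx
              rw [Function.update_self, Function.update_of_ne hpb, hyb]
            · rw [Function.update_of_ne hyx, Function.update_of_ne hpb]
              exact hf2 b hb y hy (hlt y hye hyj hyx)
          · intro b hb hbj
            have hl := hla b hb
            obtain ⟨hle, hlr, hlb⟩ := hche b hb _ hl.1
            have hlx : la b ≠ x := by
              intro h
              apply hxl
              rw [← h, hlb]
            have hlj := hlt _ hle hbj hlx
            apply (hf3 b hb hlj).congr
            · intro y hy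
              rw [Function.update_of_ne]
              apply hneq y (hche b hb y hy).1
              have := hl.2 y hy
              omega
            · rw [Function.update_of_ne]
              apply hneq _ (hpe b hb)
              have := hixb b hb _ hl.1
              omega
            · intro u hu
              obtain ⟨h10, y, hy, h11⟩ := hL b hb u hu
              rw [Function.update_of_ne]
              apply hneq _ h10
              have := hl.2 y hy
              omega
      · -- nothing new
        push Not at hx
        refine ⟨f, hf1, ?_, ?_⟩
        · intro b hb y hy hyj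
          obtain ⟨hye, hyr, _⟩ := hche b hb y (mem_of_mem_erase hy)
          have := hx y hye hyr
          exact hf2 b hb y hy (by omega)
        · intro b hb hbj
          obtain ⟨hle, hlr, _⟩ := hche b hb _ (hla b hb).1
          have := hx _ hle hlr
          exact hf3 b hb (by omega)
  obtain ⟨f, hf1, _, hf3⟩ := hrec (∑ b ∈ K, (ix (la b) + 1))
  refine ⟨f, hf1, fun b hb => hf3 b hb ?_⟩
  have := single_le_sum (f := fun b => ix (la b) + 1) (fun b _ => Nat.zero_le _) hb
  omega

end Pool.Agent.Helper80.GH2
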