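import Mathlib

/-!
# A closed walk around a tree and the cycle lemma
-/

namespace Pool.Agent.Helper80.GH2

open Finset

variable {V : Type} [DecidableEq V]

/-- Consecutive vertices of a walk on a rooted tree with parent map `g`. -/
def Rel (r : V) (g : V → V) (a c : V) : Prop := (c ≠ r ∧ g c = a) ∨ (a ≠ r ∧ g a = c)

lemma Rel.symm {r : V} {g : V → V} {a c : V} (h : Rel r g a c) : Rel r g c a := Or.symm h

lemma exists_tour (r : V) (g : V → V) (d : V → ℕ) : ∀ (N : ℕ) (X : Finset V), X.card = N → r ∈ X →
    (∀ x ∈ X, x ≠ r → g x ∈ X ∧ d (g x) < d x) →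
    ∃ l : List V, l.head? = some r ∧ l.getLast? = some r ∧ l.length + 1 = 2 * X.card ∧
      (∀ x, x ∈ l ↔ x ∈ X) ∧ l.IsChain (Rel r g) := by
  intro N
  induction N with
  | zero =>
    intro X hX hr
    rw [card_eq_zero] at hX
    subst hX
    simp at hr
  | succ N ih =>
    intro X hX hr hcl
    by_cases hN : N = 0
    · subst hN
      obtain ⟨y, hy⟩ := card_eq_one.1 hX
      rw [hy, mem_singleton] at hr
      subst hr
      refine ⟨[r], rfl, rfl, by rw [hy]; rfl, ?_, List.isChain_singleton _⟩
      intro x
      rw [hy]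
      simp
    have hne : (X.erase r).Nonempty := by
      rw [← card_pos, card_erase_of_mem hr]
      omega
    obtain ⟨x, hx, hmax⟩ := exists_max_image (X.erase r) d hne
    obtain ⟨hxr, hxX⟩ := mem_erase.1 hx
    obtain ⟨hgX, hgd⟩ := hcl x hxX hxr
    have hgx : g x ≠ x := by
      intro h
      rw [h] at hgd
      exact lt_irrefl _ hgd
    obtain ⟨l, h1, h2, h3, h4, h5⟩ := ih (X.erase x) (by rw [card_erase_of_mem hxX]; omega)
      (mem_erase.2 ⟨hxr.symm, hr⟩) (by
        intro y hy hyr
        obtain ⟨hyx, hyX⟩ := mem_erase.1 hy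
        obtain ⟨h1, h2⟩ := hcl y hyX hyr
        refine ⟨mem_erase.2 ⟨?_, h1⟩, h2⟩
        intro h
        rw [h] at h2
        have := hmax y (mem_erase.2 ⟨hyr, hyX⟩)
        omega)
    have hgl : g x ∈ l := (h4 _).2 (mem_erase.2 ⟨hgx, hgX⟩)
    obtain ⟨s, t, rfl⟩ := List.append_of_mem hgl
    refine ⟨s ++ g x :: x :: g x :: t, ?_, ?_, ?_, ?_, ?_⟩
    · cases s with
      | nil => simpa using h1
      | cons a s => simpa using h1
    · rw [List.getLast?_append] at h2 ⊢
      simpa using h2
    · rw [card_erase_of_mem hxX] at h3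
      have := card_pos.2 ⟨x, hxX⟩
      simp only [List.length_append, List.length_cons] at h3 ⊢
      omega
    · intro y
      have h6 := h4 y
      rw [mem_erase] at h6
      simp only [List.mem_append, List.mem_cons] at h6 ⊢
      constructor
      · rintro (h | h | h | h | h)
        · exact (h6.1 (Or.inl h)).2
        · rw [h]
          exact hgX
        · rw [h]
          exact hxX
        · rw [h]
          exact hgX
        · exact (h6.1 (Or.inr (Or.inr h))).2
      · intro h
        by_cases hyx : y = x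
        · tauto
        · rcases h6.2 ⟨hyx, h⟩ with h7 | h7 | h7 <;> tauto
    · rw [List.isChain_split] at h5
      rw [List.isChain_append_cons_cons, List.isChain_cons_cons]
      exact ⟨h5.1, Or.inl ⟨hxr, rfl⟩, Or.inr ⟨hxr, rfl⟩, h5.2⟩

/-- The walk as a periodic function. -/
lemma exists_walk (r : V) (g : V → V) (d : V → ℕ) (X : Finset V) (hX : 2 ≤ X.card) (hr : r ∈ X)
    (hcl : ∀ x ∈ X, x ≠ r → g x ∈ X ∧ d (g x) < d x) :
    ∃ w : ℕ → V, (∀ i, w (i + 2 * (X.card - 1)) = w i) ∧ (∀ i, w i ∈ X) ∧
      (∀ x ∈ X, ∃ i < 2 * (X.card - 1), w i = x) ∧ ∀ i, Rel r g (w i) (w (i + 1)) := by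
  obtain ⟨l, h1, h2, h3, h4, h5⟩ := exists_tour r g d _ X rfl hr hcl
  set P := 2 * (X.card - 1) with hP
  have hP0 : 0 < P := by omega
  have hlen : l.length = P + 1 := by omega
  have hmod : ∀ i, i % P < P := fun i => Nat.mod_lt i hP0
  have hlt : ∀ i, i % P < l.length := fun i => by
    have := hmod i
    omega
  have h0 : l[0]'(by omega) = r := by
    rw [List.head?_eq_getElem?, List.getElem?_eq_getElem (by omega)] at h1
    exact Option.some.inj h1
  have hPr : l[P]'(by omega) = r := by
    rw [List.getLast?_eq_getElem?, List.getElem?_eq_getElem (by omega)] at h2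
    have h6 := Option.some.inj h2
    have h7 : l.length - 1 = P := by omega
    simp only [h7] at h6
    exact h6
  refine ⟨fun i => l[i % P]'(hlt i), ?_, ?_, ?_, ?_⟩
  · intro i
    simp only [Nat.add_mod_right]
  · intro i
    exact (h4 _).1 (List.getElem_mem _)
  · intro x hx
    obtain ⟨i, hi, hix⟩ := List.getElem_of_mem ((h4 x).2 hx)
    by_cases h : i < P
    · refine ⟨i, h, ?_⟩
      simp only [Nat.mod_eq_of_lt h]
      exact hix
    · refine ⟨0, hP0, ?_⟩
      simp only [Nat.zero_mod]
      have h6 : i = P := by omega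
      subst h6
      rw [h0, ← hix, hPr]
  · intro i
    rw [List.isChain_iff_getElem] at h5
    have h6 := h5 (i % P) (by have := hmod i; omega)
    by_cases h : i % P + 1 < P
    · have h7 : (i + 1) % P = i % P + 1 := by
        rw [Nat.add_mod, Nat.mod_eq_of_lt (show 1 < P by omega), Nat.mod_eq_of_lt h]
      simp only [h7]
      exact h6
    · have h8 : i % P + 1 = P := by
        have := hmod i
        omega
      have h7 : (i + 1) % P = 0 := by
        rw [← Nat.mod_add_mod, h8, Nat.mod_self]
      simp only [h7]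
      simp only [h8] at h6
      rw [h0]
      rw [hPr] at h6
      exact h6

/-- The cycle lemma: a periodic sequence of nonnegative gains with mean at least `1` has a starting
point from which the partial sums are at least the number of terms. -/
lemma cycle_lemma (P : ℕ) (hP : 0 < P) (γ : ℕ → ℕ) (hγ : ∀ i, γ (i + P) = γ i)
    (hsum : P ≤ ∑ i ∈ range P, γ i) : ∃ s < P, ∀ j, j ≤ ∑ i ∈ range j, γ (s + i) := by
  let G : ℕ → ℤ := fun i => ∑ j ∈ range i, ((γ j : ℤ) - 1)
  have hG : ∀ i, G (i + 1) = G i + ((γ i : ℤ) - 1) := fun i => sum_range_succ _ _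
  have hGP : ∀ i, G (i + P) = G i + G P := by
    intro i
    induction i with
    | zero => simp [G]
    | succ i ih =>
      have h1 : i + 1 + P = i + P + 1 := by omega
      rw [h1, hG, hG, ih, hγ]
      ring
  have hGP0 : 0 ≤ G P := by
    have h1 : G P = (∑ j ∈ range P, (γ j : ℤ)) - P := by
      simp only [G]
      rw [sum_sub_distrib]
      simp
    rw [h1]
    have h2 : (P : ℤ) ≤ ∑ j ∈ range P, (γ j : ℤ) := by exact_mod_cast hsum
    linarith
  obtain ⟨s, hs, hmin⟩ := exists_min_image (range P) G ⟨0, mem_range.2 hP⟩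
  rw [mem_range] at hs
  have hall : ∀ i, G s ≤ G i := by
    intro i
    induction i using Nat.strong_induction_on with
    | _ i ih =>
      by_cases h : i < P
      · exact hmin i (mem_range.2 h)
      · have h1 := ih (i - P) (by omega)
        have h2 := hGP (i - P)
        have h3 : i - P + P = i := by omega
        rw [h3] at h2
        linarith
  refine ⟨s, hs, fun j => ?_⟩
  have h1 : ∀ j, G (s + j) = G s + ∑ i ∈ range j, ((γ (s + i) : ℤ) - 1) := by
    intro j
    induction j with
    | zero => simp
    | succ j ih => rw [← add_assoc, hG, ih, sum_range_succ]; ring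
  have h2 := hall (s + j)
  rw [h1 j, sum_sub_distrib] at h2
  simp only [sum_const, card_range, nsmul_eq_mul, mul_one] at h2
  have h3 : (j : ℤ) ≤ ∑ i ∈ range j, (γ (s + i) : ℤ) := by linarith
  exact_mod_cast h3

/-- The order of a tree with weights `lam` on its vertices. -/
lemma exists_order (r : V) (g : V → V) (d : V → ℕ) (X : Finset V) (hX : 2 ≤ X.card) (hr : r ∈ X)
    (hcl : ∀ x ∈ X, x ≠ r → g x ∈ X ∧ d (g x) < d x) (lam : V → ℕ)
    (hlam : 2 * (X.card - 1) ≤ ∑ x ∈ X, lam x) :
    ∃ (ix : V → ℕ) (ρ : V), ρ ∈ X ∧ ix ρ = 0 ∧ Set.InjOn ix X ∧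
      (∀ x ∈ X, x ≠ ρ → ∃ y ∈ X, ix y < ix x ∧ Rel r g y x) ∧
      ∀ x ∈ X, x ≠ ρ → (X.filter fun y => ix y < ix x).card ≤
        ∑ y ∈ X.filter (fun y => ix y < ix x), lam y := by
  classical
  obtain ⟨w, hw1, hw2, hw3, hw4⟩ := exists_walk r g d X hX hr hcl
  set P := 2 * (X.card - 1) with hP
  have hP0 : 0 < P := by omega
  choose! pos hpos1 hpos2 using hw3
  have hwmod : ∀ i, w (i % P) = w i := by
    intro i
    have h : ∀ q j, w (j + q * P) = w j := by
      intro q
      induction q with
      | zero => simp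
      | succ q ih =>
        intro j
        rw [add_mul, one_mul, ← add_assoc, hw1, ih]
    conv_rhs => rw [← Nat.mod_add_div i P, mul_comm]
    rw [h]
  let γ : ℕ → ℕ := fun i => if pos (w i) = i % P then lam (w i) else 0
  have hγ : ∀ i, γ (i + P) = γ i := by
    intro i
    simp only [γ, hw1, Nat.add_mod_right]
  have hγsum : ∑ i ∈ range P, γ i = ∑ x ∈ X, lam x := by
    symm
    rw [← sum_filter_ne_zero (s := range P)]
    rw [← sum_filter_ne_zero (s := X)]
    apply sum_bij' (fun x _ => pos x) (fun i _ => w i)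
    · intro x hx
      rw [mem_filter] at hx ⊢
      refine ⟨mem_range.2 (hpos1 x hx.1), ?_⟩
      simp only [γ]
      rw [hpos2 x hx.1, Nat.mod_eq_of_lt (hpos1 x hx.1), if_pos rfl]
      exact hx.2
    · intro i hi
      rw [mem_filter, mem_range] at hi
      rw [mem_filter]
      refine ⟨hw2 i, ?_⟩
      intro h
      apply hi.2
      simp only [γ, h]
      split_ifs <;> rfl
    · intro x hx
      rw [mem_filter] at hx
      exact hpos2 x hx.1
    · intro i hi
      rw [mem_filter, mem_range] at hi
      by_contra h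
      apply hi.2
      simp only [γ]
      rw [Nat.mod_eq_of_lt hi.1, if_neg h]
    · intro x hx
      rw [mem_filter] at hx
      simp only [γ]
      rw [hpos2 x hx.1, Nat.mod_eq_of_lt (hpos1 x hx.1), if_pos rfl]
  obtain ⟨s, hs, hcyc⟩ := cycle_lemma P hP0 γ hγ (by rw [hγsum]; exact hlam)
  -- the time of the first visit
  have hvis : ∀ x ∈ X, ∃ j, w (s + j) = x := by
    intro x hx
    refine ⟨P - s + pos x, ?_⟩
    have h1 : s + (P - s + pos x) = pos x + P := by omega
    rw [h1, hw1, hpos2 x hx]
  let ix : V → ℕ := fun x => if h : ∃ j, w (s + j) = x then Nat.find h else 0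
  have hix : ∀ x ∈ X, w (s + ix x) = x := by
    intro x hx
    have h := hvis x hx
    simp only [ix, dif_pos h]
    exact Nat.find_spec h
  have hixmin : ∀ x ∈ X, ∀ j, w (s + j) = x → ix x ≤ j := by
    intro x hx j hj
    have h := hvis x hx
    simp only [ix, dif_pos h]
    exact Nat.find_min' h hj
  have hixP : ∀ x ∈ X, ix x < P := by
    intro x hx
    by_contra h
    have h1 := hixmin x hx (ix x - P) (by
      rw [← hw1, show s + (ix x - P) + P = s + ix x by omega]
      exact hix x hx)
    omega
  refine ⟨ix, w s, hw2 s, ?_, ?_, ?_, ?_⟩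
  · have := hixmin (w s) (hw2 s) 0 rfl
    omega
  · intro x hx y hy h
    rw [← hix x hx, ← hix y hy, h]
  · intro x hx hxρ
    have h1 : 0 < ix x := by
      by_contra h
      apply hxρ
      rw [← hix x hx, show ix x = 0 by omega, add_zero]
    refine ⟨w (s + (ix x - 1)), hw2 _, ?_, ?_⟩
    · have := hixmin (w (s + (ix x - 1))) (hw2 _) (ix x - 1) rfl
      omega
    · have h2 := hw4 (s + (ix x - 1))
      rw [show s + (ix x - 1) + 1 = s + ix x by omega, hix x hx] at h2
      exact h2
  · intro x hx _
    set U := X.filter fun y => ix y < ix x with hU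
    have hUc : U.card ≤ ix x := by
      have h1 : U.card ≤ (range (ix x)).card := by
        apply card_le_card_of_injOn ix
        · intro y hy
          have hy' := (mem_filter.1 hy).2
          exact mem_coe.2 (mem_range.2 hy')
        · intro y hy y' hy' h
          have h1 := (mem_filter.1 (mem_coe.1 hy)).1
          have h2 := (mem_filter.1 (mem_coe.1 hy')).1
          rw [← hix y h1, ← hix y' h2, h]
      rwa [card_range] at h1
    refine hUc.trans ((hcyc (ix x)).trans ?_)
    -- the designated visits
    set J := (range (ix x)).filter fun i => pos (w (s + i)) = (s + i) % P with hJ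
    have h1 : ∑ i ∈ range (ix x), γ (s + i) = ∑ i ∈ J, lam (w (s + i)) := by
      rw [hJ, sum_filter]
    rw [h1]
    have hinj : Set.InjOn (fun i => w (s + i)) J := by
      intro i hi i' hi' h
      rw [mem_coe, hJ, mem_filter, mem_range] at hi hi'
      simp only at h
      have h2 : (s + i) % P = (s + i') % P := by
        rw [← hi.2, ← hi'.2, h]
      have h3 := hixP x hx
      have h4 : i ≡ i' [MOD P] := Nat.ModEq.add_left_cancel' s h2
      exact Nat.ModEq.eq_of_lt_of_lt h4 (by omega) (by omega)
    rw [← sum_image (f := lam) (g := fun i => w (s + i)) hinj]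
    apply sum_le_sum_of_subset
    intro y hy
    obtain ⟨i, hi, rfl⟩ := mem_image.1 hy
    rw [hJ, mem_filter, mem_range] at hi
    rw [hU, mem_filter]
    refine ⟨hw2 _, ?_⟩
    have := hixmin (w (s + i)) (hw2 _) i rfl
    omega

end Pool.Agent.Helper80.GH2
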