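import Pool.Agent.Helper80.GH2.StarsMN
import Pool.Agent.Helper80.GH2.Tour
import Pool.Agent.Helper80.GH2.Label

/-!
# Decomposition of `K_{m,n}` into `m` copies of a tree with a small colour class
-/

namespace Pool.Agent.Helper80.GH2

open Finset Pool.Agent.Helper19.GH Pool.Agent.Helper80.GH

section

variable {V : Type} [Fintype V] [DecidableEq V]

/-- The parity of the distance from a root outside `B`. -/
lemma mem_iff_not_even (T : SimpleGraph V) (hT : T.IsTree) (B : Finset V)
    (hB : ∀ u w, T.Adj u w → (u ∈ B ↔ w ∉ B)) (r : V) (hr : r ∉ B) (y : V) :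
    y ∈ B ↔ ¬ Even (T.dist r y) := by
  have := even_dist_iff T hT B hB r hr _ y rfl
  tauto

/-- The number of the leaves in `B`. -/
lemma card_leaves (T : SimpleGraph V) [DecidableRel T.Adj] (hT : T.IsTree) {n : ℕ}
    (hn : Fintype.card V = n + 1) (hn0 : 0 < n) (B : Finset V)
    (hB : ∀ u w, T.Adj u w → (u ∈ B ↔ w ∉ B)) :
    ∑ b ∈ B.filter (fun b => T.degree b ≠ 1), T.degree b +
        (B.filter fun b => T.degree b = 1).card = n ∧
      n + 2 ≤ 2 * Bᶜ.card + (B.filter fun b => T.degree b = 1).card := by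
  classical
  have hposdeg : ∀ v, 0 < T.degree v := degree_pos T n hT hn hn0
  have hbip : T.IsBipartiteWith (B : Set V) ((Bᶜ : Finset V) : Set V) := by
    refine ⟨?_, ?_⟩
    · rw [Finset.disjoint_coe]
      exact disjoint_compl_right
    · intro v w hvw
      have := hB v w hvw
      simp only [mem_coe, mem_compl]
      tauto
  have hsum : ∑ b ∈ B, T.degree b = n := by
    rw [SimpleGraph.isBipartiteWith_sum_degrees_eq_card_edges hbip]
    have := hT.card_edgeFinset
    omega
  have h2 : ∑ b ∈ B.filter (fun b => ¬ T.degree b ≠ 1), T.degree b =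
      (B.filter (fun b => T.degree b = 1)).card := by
    rw [card_eq_sum_ones]
    apply sum_congr
    · ext b
      rw [mem_filter, mem_filter, not_not]
    · intro b hb
      exact (mem_filter.1 hb).2
  have h3 := sum_filter_add_sum_filter_not B (fun b => T.degree b ≠ 1) (fun b => T.degree b)
  rw [h2, hsum] at h3
  have h4 := card_filter_add_card_filter_not (s := B) (fun b => T.degree b ≠ 1)
  have h5 : (B.filter (fun b => ¬ T.degree b ≠ 1)).card =
      (B.filter (fun b => T.degree b = 1)).card := by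
    congr 1
    ext b
    rw [mem_filter, mem_filter, not_not]
  rw [h5] at h4
  have h6 : 2 * (B.filter (fun b => T.degree b ≠ 1)).card ≤
      ∑ b ∈ B.filter (fun b => T.degree b ≠ 1), T.degree b := by
    rw [mul_comm, ← smul_eq_mul, ← sum_const]
    apply sum_le_sum
    intro b hb
    have := (mem_filter.1 hb).2
    have := hposdeg b
    omega
  have h7 := card_compl_add_card B
  refine ⟨h3, ?_⟩
  omega

end

/-- `T` is a tree with `n` edges, `B` one of its colour classes. -/
theorem main_mn (V : Type) [Fintype V] [DecidableEq V] (T : SimpleGraph V) [DecidableRel T.Adj]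
    (m n : ℕ) (B : Finset V) (M : V → ℕ) (hT : T.IsTree)
    (hn : Fintype.card V = n + 1) (hB : ∀ u w, T.Adj u w → (u ∈ B ↔ w ∉ B))
    (hM : ∀ b ∈ B, T.degree b ≠ 1 → M b ∣ m ∧ T.degree b ≤ M b ∧ M b + 1 ≤ 2 * T.degree b)
    (hsum : ∑ b ∈ B.filter (fun b => T.degree b ≠ 1), M b ≤ m)
    (hα : 4 * Bᶜ.card ≤ n + 4) :
    Decomposes T (completeBipartiteGraph (Fin m) (Fin n)) := by
  classical
  rcases Nat.eq_zero_or_pos n with hn0 | hn0
  · subst hn0
    refine ⟨0, fun i => i.elim0, fun i => i.elim0, fun i => i.elim0, ?_⟩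
    rintro (x | x) (y | y) h
    · simp [completeBipartiteGraph] at h
    · exact y.elim0
    · exact x.elim0
    · exact x.elim0
  rcases Nat.eq_zero_or_pos m with hm0 | hm0
  · subst hm0
    refine ⟨0, fun i => i.elim0, fun i => i.elim0, fun i => i.elim0, ?_⟩
    rintro (x | x) (y | y) h
    · exact x.elim0
    · exact x.elim0
    · exact y.elim0
    · simp [completeBipartiteGraph] at h
  have hposdeg : ∀ v, 0 < T.degree v := degree_pos T n hT hn hn0
  obtain ⟨hcount1, hcount2⟩ := card_leaves T hT hn hn0 B hB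
  set K := B.filter (fun b => T.degree b ≠ 1) with hK
  set Λ := B.filter (fun b => T.degree b = 1) with hΛ
  have hKmem : ∀ b, b ∈ K ↔ b ∈ B ∧ T.degree b ≠ 1 := fun b => by rw [hK, mem_filter]
  have hΛmem : ∀ b, b ∈ Λ ↔ b ∈ B ∧ T.degree b = 1 := fun b => by rw [hΛ, mem_filter]
  have hKΛ : Disjoint K Λ := by
    rw [disjoint_left]
    intro b h1 h2
    exact ((hKmem b).1 h1).2 ((hΛmem b).1 h2).2
  -- the neighbour of a leaf is unique
  have hleaf : ∀ u ∈ Λ, ∀ y y', T.Adj u y → T.Adj u y' → y = y' := by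
    intro u hu y y' h h'
    have h1 := ((hΛmem u).1 hu).2
    rw [← SimpleGraph.card_neighborFinset_eq_degree, card_eq_one] at h1
    obtain ⟨z, hz⟩ := h1
    have h2 : y ∈ T.neighborFinset u := by rwa [SimpleGraph.mem_neighborFinset]
    have h3 : y' ∈ T.neighborFinset u := by rwa [SimpleGraph.mem_neighborFinset]
    rw [hz, mem_singleton] at h2 h3
    rw [h2, h3]
  -- facts about rooted trees
  have hroot : ∀ (r : V), r ∉ B → ∀ par : V → V,
      (∀ x, x ≠ r → T.Adj x (par x) ∧ T.dist r x = T.dist r (par x) + 1) →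
      (∀ u w, T.Adj u w → (u ≠ r ∧ par u = w) ∨ (w ≠ r ∧ par w = u)) →
      (∀ b ∈ B, T.degree b = (ch r par b).card + 1) := by
    intro r hr par hpar hedge b hb
    have hbr : b ≠ r := by
      rintro rfl
      exact hr hb
    rw [← SimpleGraph.card_neighborFinset_eq_degree, neighborFinset_eq T r par
      (fun x hx => (hpar x hx).1) hedge b hbr, card_insert_of_notMem
      (par_notMem_ch (fun x hx => (hpar x hx).2) hbr)]
  by_cases hKe : K = ∅
  · -- a star
    obtain ⟨v⟩ := hT.connected.nonempty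
    obtain ⟨r, hrB⟩ : ∃ r, r ∉ B := by
      by_contra h
      push Not at h
      have h1 := hposdeg v
      rw [← SimpleGraph.card_neighborFinset_eq_degree, card_pos] at h1
      obtain ⟨w, hw⟩ := h1
      rw [SimpleGraph.mem_neighborFinset] at hw
      exact (hB v w hw).1 (h v) (h w)
    obtain ⟨par, hpar, hedge⟩ := exists_par T hT r
    have hdist := mem_iff_not_even T hT B hB r hrB
    have hdeg := hroot r hrB par hpar hedge
    have hall : ∀ a, Even (T.dist r a) → a = r := by
      intro a ha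
      by_contra har
      have h1 : T.dist r a = T.dist r (par a) + 1 := (hpar a har).2
      have h2 : par a ∈ B := by
        rw [hdist]
        rw [h1, Nat.even_add_one] at ha
        exact ha
      have h3 : par a ∈ K := by
        rw [hKmem]
        refine ⟨h2, ?_⟩
        rw [hdeg _ h2]
        have : 0 < (ch r par (par a)).card := card_pos.2 ⟨a, mem_ch.2 ⟨har, rfl⟩⟩
        omega
      rw [hKe] at h3
      simp at h3
    refine decomposes_starsC_mn hm0 hn0 T r par (fun y => T.dist r y) hn hpar hedge ?_ ?_ ∅ Λ (by simp)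
      ?_ ?_ (by simp) M (fun _ => 0) (by simp) (fun _ => ∅) (by simp) (by simp) ?_ (fun _ => 0)
      (fun _ _ => hm0) ?_ (by simp)
    · intro u w huw
      have h1 := hB u w huw
      have h2 := hdist u
      have h3 := hdist w
      tauto
    · simp
    · intro b hb
      exact (hdist b).1 ((hΛmem b).1 hb).1
    · intro b hb
      right
      rw [hΛmem]
      refine ⟨(hdist b).2 hb, ?_⟩
      by_contra h
      have : b ∈ K := (hKmem b).2 ⟨(hdist b).2 hb, h⟩
      rw [hKe] at this
      simp at this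
    · rw [hKe] at hcount1
      simp only [sum_empty, zero_add, add_zero] at hcount1 ⊢
      exact hcount1
    · intro a a' ha ha' _
      rw [hall a ha, hall a' ha']
  -- there is a star
  obtain ⟨b1, hb1⟩ := nonempty_iff_ne_empty.2 hKe
  set X : Finset V := Bᶜ with hX
  have hXmem : ∀ x, x ∈ X ↔ x ∉ B := fun x => by rw [hX, mem_compl]
  obtain ⟨r0, hr0B⟩ : ∃ r, r ∉ B := by
    by_contra h
    push Not at h
    have h1 := hposdeg b1
    rw [← SimpleGraph.card_neighborFinset_eq_degree, card_pos] at h1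
    obtain ⟨w, hw⟩ := h1
    rw [SimpleGraph.mem_neighborFinset] at hw
    exact (hB b1 w hw).1 (h b1) (h w)
  obtain ⟨par0, hpar0, hedge0⟩ := exists_par T hT r0
  have hdist0 := mem_iff_not_even T hT B hB r0 hr0B
  have hpar0B : ∀ x, x ≠ r0 → (x ∈ B ↔ par0 x ∉ B) := fun x hx => hB x _ (hpar0 x hx).1
  have hne0 : ∀ b ∈ B, b ≠ r0 := by
    rintro b hb rfl
    exact hr0B hb
  have hX2 : 2 ≤ X.card := by
    have h1 := (hKmem b1).1 hb1
    have h2 := hposdeg b1
    have h3 : (T.neighborFinset b1).card ≤ X.card := by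
      apply card_le_card
      intro x hx
      rw [SimpleGraph.mem_neighborFinset] at hx
      exact (hXmem x).2 ((hB b1 x hx).1 h1.1)
    rw [SimpleGraph.card_neighborFinset_eq_degree] at h3
    omega
  -- the order
  let lam : V → ℕ := fun x => (Λ.filter fun u => T.Adj u x).card
  have hlamsum : ∑ x ∈ X, lam x = Λ.card := by
    have h1 := sum_card_bipartiteAbove_eq_sum_card_bipartiteBelow (s := X) (t := Λ)
      (fun x u => T.Adj u x)
    have h2 : ∀ x, bipartiteAbove (fun x u => T.Adj u x) Λ x = Λ.filter fun u => T.Adj u x :=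
      fun x => rfl
    have h3 : ∀ u ∈ Λ, (bipartiteBelow (fun x u => T.Adj u x) X u).card = 1 := by
      intro u hu
      have h4 : bipartiteBelow (fun x u => T.Adj u x) X u = T.neighborFinset u := by
        ext x
        rw [mem_bipartiteBelow, SimpleGraph.mem_neighborFinset]
        constructor
        · exact fun h => h.2
        · exact fun h => ⟨(hXmem x).2 ((hB u x h).1 ((hΛmem u).1 hu).1), h⟩
      rw [h4, SimpleGraph.card_neighborFinset_eq_degree]
      exact ((hΛmem u).1 hu).2
    rw [sum_congr rfl h3] at h1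
    simp only [sum_const, smul_eq_mul, mul_one] at h1
    exact h1
  obtain ⟨ix, ρ, hρX, hixρ, hixinj, hixadj, hixlam⟩ := exists_order r0 (fun x => par0 (par0 x))
    (fun x => T.dist r0 x) X hX2 ((hXmem _).2 hr0B) (by
      intro x hx hxr
      have h1 := hpar0 x hxr
      have h2 : par0 x ∈ B := by
        by_contra h
        exact ((hXmem x).1 hx) ((hpar0B x hxr).2 h)
      have h3 := hpar0 (par0 x) (hne0 _ h2)
      refine ⟨(hXmem _).2 ((hpar0B _ (hne0 _ h2)).1 h2), ?_⟩
      omega) lam (by rw [hlamsum]; omega)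
  have hρB : ρ ∉ B := (hXmem ρ).1 hρX
  have hadj : ∀ x ∈ X, x ≠ ρ → ∃ y ∈ X, ix y < ix x ∧ ∃ b, T.Adj b x ∧ T.Adj b y := by
    intro x hx hxρ
    obtain ⟨y, hy, h1, h2⟩ := hixadj x hx hxρ
    refine ⟨y, hy, h1, ?_⟩
    have key : ∀ a c, a ∈ X → c ≠ r0 ∧ par0 (par0 c) = a → c ∈ X → ∃ b, T.Adj b c ∧ T.Adj b a := by
      intro a c _ h hc
      have h3 := (hpar0 c h.1).1
      have h4 : par0 c ∈ B := by
        by_contra h5
        exact ((hXmem c).1 hc) ((hpar0B c h.1).2 h5)
      have h5 := (hpar0 _ (hne0 _ h4)).1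
      rw [h.2] at h5
      exact ⟨par0 c, h3.symm, h5⟩
    rcases h2 with h2 | h2
    · exact key y x hy h2 hx
    · obtain ⟨b, h3, h4⟩ := key x y hx h2 hy
      exact ⟨b, h4, h3⟩
  -- the new root
  obtain ⟨par, hpar, hedge⟩ := exists_par T hT ρ
  have hdist := mem_iff_not_even T hT B hB ρ hρB
  have hdist' : ∀ x, x ∈ X ↔ Even (T.dist ρ x) := by
    intro x
    rw [hXmem, hdist, not_not]
  have hdeg := hroot ρ hρB par hpar hedge
  have hne : ∀ b ∈ B, b ≠ ρ := by
    rintro b hb rfl
    exact hρB hb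
  have hd : ∀ x, x ≠ ρ → T.dist ρ x = T.dist ρ (par x) + 1 := fun x hx => (hpar x hx).2
  have hparX : ∀ x ∈ X, x ≠ ρ → par x ∈ B := by
    intro x hx hxρ
    rw [hdist]
    have h1 := (hdist' x).1 hx
    rw [hd x hxρ, Nat.even_add_one] at h1
    exact h1
  have hparB : ∀ b ∈ B, par b ∈ X := by
    intro b hb
    rw [hXmem]
    exact (hB b _ (hpar b (hne b hb)).1).1 hb
  have hchX : ∀ b ∈ B, ∀ y ∈ ch ρ par b, y ∈ X ∧ y ≠ ρ ∧ par y = b := by
    intro b hb y hy
    rw [mem_ch] at hy
    refine ⟨?_, hy.1, hy.2⟩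
    rw [hXmem]
    have h1 := (hpar y hy.1).1
    rw [hy.2] at h1
    exact fun h2 => (hB y b h1).1 h2 hb
  have hix : ∀ x, Even (T.dist ρ x) → x ≠ ρ → ix (par (par x)) < ix x := by
    have h : ∀ j x, x ∈ X → x ≠ ρ → ix x = j → ix (par (par x)) < ix x := by
      intro j
      induction j using Nat.strong_induction_on with
      | _ j ih =>
        intro x hx hxρ hxj
        obtain ⟨y, hy, hyx, b, hbx, hby⟩ := hadj x hx hxρ
        have hyne : y ≠ x := by
          rintro rfl
          exact lt_irrefl _ hyx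
        have hbB : b ∈ B := by
          rw [hB b x hbx]
          exact (hXmem x).1 hx
        rcases hedge b x hbx with ⟨_, h1⟩ | ⟨_, h1⟩
        · -- `x` is the parent of `b`
          rcases hedge b y hby with ⟨_, h2⟩ | ⟨h2', h2⟩
          · exact absurd (h2.symm.trans h1) hyne
          · have h3 := ih (ix y) (by omega) y hy h2' rfl
            rw [h2, h1] at h3
            omega
        · rw [h1]
          rcases hedge b y hby with ⟨_, h2⟩ | ⟨h2', h2⟩
          · rw [h2]
            exact hyx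
          · have h3 := ih (ix y) (by omega) y hy h2' rfl
            rw [h2] at h3
            omega
    intro x hx hxρ
    exact h _ x ((hdist' x).2 hx) hxρ rfl
  -- the assignment of leaves
  let ts : {x // x ∈ X ∧ x ≠ ρ} → Finset V := fun x =>
    Λ.filter fun u => ∃ y ∈ X, T.Adj u y ∧ ix y < ix x.1
  have hhall : ∀ s : Finset {x // x ∈ X ∧ x ≠ ρ}, s.card ≤ (s.biUnion ts).card := by
    intro s
    rcases s.eq_empty_or_nonempty with h | h
    · subst h
      simp
    obtain ⟨x, hx, hmax⟩ := exists_max_image s (fun x => ix x.1) h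
    have h1 : (ts x).card = ∑ y ∈ X.filter (fun y => ix y < ix x.1), lam y := by
      have h2 : ts x = (X.filter (fun y => ix y < ix x.1)).biUnion
          fun y => Λ.filter fun u => T.Adj u y := by
        ext u
        simp only [ts, mem_filter, mem_biUnion]
        constructor
        · rintro ⟨h3, y, h4, h5, h6⟩
          exact ⟨y, ⟨h4, h6⟩, h3, h5⟩
        · rintro ⟨y, ⟨h4, h6⟩, h3, h5⟩
          exact ⟨h3, y, h4, h5, h6⟩
      rw [h2, card_biUnion]
      intro y _ y' _ hyy
      rw [Function.onFun, disjoint_left]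
      intro u hu hu'
      rw [mem_filter] at hu hu'
      exact hyy (hleaf u hu.1 y y' hu.2 hu'.2)
    have h2 := hixlam x.1 x.2.1 x.2.2
    rw [← h1] at h2
    have h3 : s.card ≤ (X.filter fun y => ix y < ix x.1).card := by
      have h4 : (s.image fun x => x.1).card = s.card :=
        card_image_of_injective _ Subtype.val_injective
      have h5 : s.image (fun x => x.1) ⊆ (insert x.1 (X.filter fun y => ix y < ix x.1)).erase ρ := by
        intro y hy
        obtain ⟨y', hy', rfl⟩ := mem_image.1 hy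
        rw [mem_erase, mem_insert, mem_filter]
        refine ⟨y'.2.2, ?_⟩
        by_cases h6 : y' = x
        · left
          rw [h6]
        · right
          refine ⟨y'.2.1, lt_of_le_of_ne (hmax y' hy') ?_⟩
          intro h7
          exact h6 (Subtype.ext (hixinj y'.2.1 x.2.1 h7))
      have h6 := card_le_card h5
      have h7 : ρ ∈ insert x.1 (X.filter fun y => ix y < ix x.1) := by
        rw [mem_insert, mem_filter]
        right
        refine ⟨hρX, ?_⟩
        rw [hixρ]
        rcases Nat.eq_zero_or_pos (ix x.1) with h8 | h8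
        · exact absurd (hixinj x.2.1 hρX (h8.trans hixρ.symm)) x.2.2
        · exact h8
      rw [card_erase_of_mem h7, h4] at h6
      have h8 := card_insert_le x.1 (X.filter fun y => ix y < ix x.1)
      omega
    exact h3.trans (h2.trans (card_le_card (subset_biUnion_of_mem ts hx)))
  obtain ⟨τ0, hτinj, hτ⟩ := (all_card_le_biUnion_card_iff_exists_injective ts).1 hhall
  let τ : V → V := fun x => if h : x ∈ X ∧ x ≠ ρ then τ0 ⟨x, h⟩ else x
  have hτe : ∀ x (h : x ∈ X ∧ x ≠ ρ), τ x = τ0 ⟨x, h⟩ := fun x h => dif_pos h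
  have hτ1 : ∀ x, x ∈ X → x ≠ ρ → τ x ∈ Λ ∧ ix (par (τ x)) < ix x ∧ par (τ x) ∈ X := by
    intro x hx hxρ
    have h1 := hτ ⟨x, hx, hxρ⟩
    rw [mem_filter] at h1
    obtain ⟨h2, y, hy, h3, h4⟩ := h1
    rw [hτe x ⟨hx, hxρ⟩]
    have h5 := ((hΛmem _).1 h2).1
    have h6 := hleaf _ h2 _ _ h3 (hpar _ (hne _ h5)).1
    refine ⟨h2, ?_, ?_⟩
    · rw [← h6]
      exact h4
    · rw [← h6]
      exact hy
  have hτ2 : ∀ x, x ∈ X → x ≠ ρ → ∀ x', x' ∈ X → x' ≠ ρ → τ x = τ x' → x = x' := by
    intro x hx hxρ x' hx' hxρ' h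
    rw [hτe x ⟨hx, hxρ⟩, hτe x' ⟨hx', hxρ'⟩] at h
    exact congrArg Subtype.val (hτinj h)
  have hKB : ∀ b ∈ K, b ∈ B := fun b hb => ((hKmem b).1 hb).1
  have hMK : ∀ b ∈ K, M b ∣ m ∧ T.degree b ≤ M b ∧ M b + 1 ≤ 2 * T.degree b := fun b hb =>
    hM b (hKB b hb) ((hKmem b).1 hb).2
  have hC : ∀ b, ∃ C : Finset V, b ∈ K → C ⊆ ch ρ par b ∧ C.card = M b - T.degree b := by
    intro b
    by_cases hb : b ∈ K
    · have h1 := hMK b hb
      have h2 := hdeg b (hKB b hb)
      obtain ⟨C, hC1, hC2⟩ := exists_subset_card_eq (s := ch ρ par b) (n := M b - T.degree b)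
        (by omega)
      exact ⟨C, fun _ => ⟨hC1, hC2⟩⟩
    · exact ⟨∅, fun h => absurd h hb⟩
  choose C hC using hC
  let L : V → Finset V := fun b => (C b).image τ
  have hLc : ∀ b ∈ K, (L b).card = M b - T.degree b := by
    intro b hb
    obtain ⟨h1, h2⟩ := hC b hb
    rw [← h2]
    apply card_image_of_injOn
    intro x hx x' hx' h
    have h3 := hchX b (hKB b hb) x (h1 hx)
    have h4 := hchX b (hKB b hb) x' (h1 hx')
    exact hτ2 x h3.1 h3.2.1 x' h4.1 h4.2.1 h
  have hL1 : ∀ b ∈ K, L b ⊆ Λ := by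
    intro b hb u hu
    obtain ⟨x, hx, rfl⟩ := mem_image.1 hu
    have h3 := hchX b (hKB b hb) x ((hC b hb).1 hx)
    exact (hτ1 x h3.1 h3.2.1).1
  have hL2 : ∀ b ∈ K, ∀ b' ∈ K, b ≠ b' → Disjoint (L b) (L b') := by
    intro b hb b' hb' hbb
    rw [disjoint_left]
    intro u hu hu'
    obtain ⟨x, hx, rfl⟩ := mem_image.1 hu
    obtain ⟨x', hx', h⟩ := mem_image.1 hu'
    have h3 := hchX b (hKB b hb) x ((hC b hb).1 hx)
    have h4 := hchX b' (hKB b' hb') x' ((hC b' hb').1 hx')
    have h5 := hτ2 x' h4.1 h4.2.1 x h3.1 h3.2.1 h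
    subst h5
    exact hbb (h3.2.2.symm.trans h4.2.2)
  obtain ⟨t, ht1, ht2⟩ := exists_blocks M K
  -- the star at the root
  have hKch : ∀ b ∈ K, (ch ρ par b).Nonempty := by
    intro b hb
    rw [← card_pos]
    have h1 := hdeg b (hKB b hb)
    have h2 := ((hKmem b).1 hb).2
    have h3 := hposdeg b
    omega
  have hchK : ∀ b ∈ B, (ch ρ par b).Nonempty → b ∈ K := by
    intro b hb h
    rw [hKmem]
    refine ⟨hb, ?_⟩
    rw [hdeg b hb]
    have := card_pos.2 h
    omega
  obtain ⟨b0, hb0K, hb0ρ⟩ : ∃ b0 ∈ K, par b0 = ρ := by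
    have hne' : (X.erase ρ).Nonempty := by
      rw [← card_pos, card_erase_of_mem hρX]
      omega
    obtain ⟨x, hx, hmin⟩ := exists_min_image (X.erase ρ) (fun x => T.dist ρ x) hne'
    obtain ⟨hxρ, hxX⟩ := mem_erase.1 hx
    have h1 := hparX x hxX hxρ
    refine ⟨par x, hchK _ h1 ⟨x, mem_ch.2 ⟨hxρ, rfl⟩⟩, ?_⟩
    by_contra h
    have h2 := hmin (par (par x)) (mem_erase.2 ⟨h, hparB _ h1⟩)
    have h3 := hd x hxρ
    have h4 := hd (par x) (hne _ h1)
    omega
  obtain ⟨f, hfr, hstar⟩ := labelling ρ par (fun x => T.dist ρ x) hd (by simp) K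
    (fun b hb => (hdist b).1 (hKB b hb)) hKch
    (fun b hb h => hchK b ((hdist b).2 hb) h) M t L (by
      intro b hb
      have h1 := hdeg b (hKB b hb)
      have h2 := hLc b hb
      have h3 := hMK b hb
      omega) (by
      intro b hb
      have h2 := hLc b hb
      have h3 := hMK b hb
      omega) ix hix (fun x y hx hy h => hixinj ((hdist' x).2 hx) ((hdist' y).2 hy) h) (by
      intro b hb u hu
      obtain ⟨x, hx, rfl⟩ := mem_image.1 hu
      have h3 := hchX b (hKB b hb) x ((hC b hb).1 hx)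
      have h4 := hτ1 x h3.1 h3.2.1
      exact ⟨(hdist' _).1 h4.2.2, x, (hC b hb).1 hx, h4.2.1⟩) (t b0)
  -- blocks
  have hevb : ∀ a ∈ X, a ≠ ρ → par a ∈ K ∧ a ∈ ch ρ par (par a) := by
    intro a ha h
    have h1 := hparX a ha h
    exact ⟨hchK _ h1 ⟨a, mem_ch.2 ⟨h, rfl⟩⟩, mem_ch.2 ⟨h, rfl⟩⟩
  have hblock : ∀ b ∈ K, ∀ y ∈ ch ρ par b, t b ≤ f y ∧ f y < t b + M b := fun b hb =>
    (hstar b hb).1
  have hMpos : ∀ b ∈ K, 0 < M b := by
    intro b hb
    have h1 := hposdeg b
    have h2 := (hMK b hb).2.1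
    omega
  have hrootne : ∀ a ∈ X, a ≠ ρ → f a ≠ f ρ := by
    intro a ha h1 h2
    obtain ⟨h3, h4⟩ := hevb a ha h1
    by_cases h5 : par a = b0
    · have h6 := (hstar b0 hb0K).2.2.1 a (h5 ▸ h4)
      apply h6
      rw [hb0ρ, h2]
    · have h6 := hblock _ h3 a h4
      rw [h2, hfr] at h6
      have h7 := ht2 _ h3 b0 hb0K h5
      have h8 := hMpos b0 hb0K
      omega
  refine decomposes_starsC_mn hm0 hn0 T ρ par (fun x => T.dist ρ x) hn hpar hedge ?_ (by simp) K Λ
    (fun b hb => (hdist b).1 (hKB b hb)) (fun b hb => (hdist b).1 ((hΛmem b).1 hb).1) ?_ hKΛ M t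
    (fun b hb => (hMK b hb).1) L hL1 hL2 ?_ f ?_ ?_ hstar
  · intro u w huw
    have h1 := hB u w huw
    have h2 := hdist u
    have h3 := hdist w
    tauto
  · intro b hb
    have h1 := (hdist b).2 hb
    by_cases h : T.degree b = 1
    · exact Or.inr ((hΛmem b).2 ⟨h1, h⟩)
    · exact Or.inl ((hKmem b).2 ⟨h1, h⟩)
  · rw [sum_congr rfl hLc]
    have h1 : ∑ b ∈ K, M b = ∑ b ∈ K, T.degree b + ∑ b ∈ K, (M b - T.degree b) := by
      rw [← sum_add_distrib]
      apply sum_congr rfl
      intro b hb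
      have := (hMK b hb).2.1
      omega
    rw [h1]
    omega
  · intro a ha
    have haX := (hdist' a).2 ha
    by_cases h : a = ρ
    · rw [h, hfr]
      have h1 := ht1 b0 hb0K
      have h2 := hMpos b0 hb0K
      omega
    · obtain ⟨h3, h4⟩ := hevb a haX h
      have h5 := hblock _ h3 a h4
      have h6 := ht1 _ h3
      omega
  · intro a a' ha ha' haa
    have haX := (hdist' a).2 ha
    have haX' := (hdist' a').2 ha'
    by_cases h : a = ρ <;> by_cases h' : a' = ρ
    · rw [h, h']
    · rw [h] at haa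
      exact absurd haa.symm (hrootne a' haX' h')
    · rw [h'] at haa
      exact absurd haa (hrootne a haX h)
    · obtain ⟨h3, h4⟩ := hevb a haX h
      obtain ⟨h3', h4'⟩ := hevb a' haX' h'
      by_cases h5 : par a = par a'
      · rw [← h5] at h4'
        exact (hstar _ h3).2.1 h4 h4' haa
      · exfalso
        have h6 := hblock _ h3 a h4
        have h7 := hblock _ h3' a' h4'
        have h8 := ht2 _ h3 _ h3' h5
        omega

end Pool.Agent.Helper80.GH2
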