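import Pool.Agent.Helper80.GH.Phase

/-!
# One star, all children but one labelled in advance
-/

namespace Pool.Agent.Helper80.GH2

open Finset Pool.Agent.Helper80.GH

lemma exists_colours2 {V : Type} [DecidableEq V] (L : Finset V) (M s : ℕ)
    (hM : 2 * L.card + 1 ≤ M) (γ : V → ℤ) :
    ∃ x : V → ℤ, (∀ u ∈ L, (s : ℤ) + 1 ≤ x u ∧ x u ≤ s + L.card + 1) ∧
      (∀ u ∈ L, ∀ v ∈ L, x u = x v → u = v) ∧
      (∀ u ∈ L, ¬ x u ≡ γ u [ZMOD (M : ℤ)]) ∧
      ∀ u ∈ L, ∀ v ∈ L, x u - γ u ≡ x v - γ v [ZMOD (M : ℤ)] → u = v := by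
  classical
  rcases L.eq_empty_or_nonempty with hL | hL
  · subst hL
    exact ⟨fun _ => 0, by simp, by simp, by simp, by simp⟩
  have hLc := card_pos.2 hL
  have hM' : 2 * L.card + 1 ≤ M := hM
  set m := L.card with hm
  have e : L ≃ Fin m := L.equivFin
  let R : Finset ℚ := (Icc ((s : ℤ) + 1) (s + m + 1)).image (fun z : ℤ => (z : ℚ))
  have hRc : m < R.card := by
    rw [card_image_of_injective _ Int.cast_injective, Int.card_Icc]
    omega
  let g : Fin m → ℤ := fun i => γ (e.symm i)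
  let a : Fin m → ℚ := fun i =>
    if h : ∃ z : ℤ, ((s : ℤ) + 1 ≤ z ∧ z ≤ s + m + 1) ∧ z ≡ g i [ZMOD (M : ℤ)] then
      ((h.choose : ℤ) : ℚ) else 0
  let c : Fin m → Fin m → ℚ := fun i j =>
    if h : ∃ z : ℤ, (-(m : ℤ) ≤ z ∧ z ≤ m) ∧ z ≡ g j - g i [ZMOD (M : ℤ)] then
      ((h.choose : ℤ) : ℚ) else 0
  obtain ⟨y, hy1, hy2, hy3⟩ := exists_distinct R hRc a c
  have hyz : ∀ i, ∃ z : ℤ, ((s : ℤ) + 1 ≤ z ∧ z ≤ s + m + 1) ∧ (z : ℚ) = y i := by
    intro i
    obtain ⟨z, hz, hz'⟩ := mem_image.1 (hy1 i)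
    exact ⟨z, mem_Icc.1 hz, hz'⟩
  choose z hz1 hz2 using hyz
  have hza : ∀ i, ¬ z i ≡ g i [ZMOD (M : ℤ)] := by
    intro i h
    apply hy2 i
    have h1 : ∃ z : ℤ, ((s : ℤ) + 1 ≤ z ∧ z ≤ s + m + 1) ∧ z ≡ g i [ZMOD (M : ℤ)] :=
      ⟨z i, hz1 i, h⟩
    have h2 : a i = ((h1.choose : ℤ) : ℚ) := dif_pos h1
    have h3 := h1.choose_spec
    rw [h2, ← hz2 i]
    congr 1
    have h4 := (hz1 i)
    apply int_eq_of_modEq (h.trans h3.2.symm)
    · omega
    · omega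
  have hzinj : ∀ i j, i < j → z j ≠ z i := by
    intro i j hij h
    apply (hy3 i j hij).1
    rw [← hz2 i, ← hz2 j, h]
  have hzc : ∀ i j, i < j → ¬ z j - z i ≡ g j - g i [ZMOD (M : ℤ)] := by
    intro i j hij h
    apply (hy3 i j hij).2
    have h4 := hz1 i
    have h5 := hz1 j
    have h1 : ∃ z : ℤ, (-(m : ℤ) ≤ z ∧ z ≤ m) ∧ z ≡ g j - g i [ZMOD (M : ℤ)] :=
      ⟨z j - z i, ⟨by omega, by omega⟩, h⟩
    have h2 : c i j = ((h1.choose : ℤ) : ℚ) := dif_pos h1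
    have h3 := h1.choose_spec
    rw [h2, ← hz2 i, ← hz2 j, ← Int.cast_sub]
    congr 1
    apply int_eq_of_modEq (h.trans h3.2.symm)
    · omega
    · omega
  let x : V → ℤ := fun u => if h : u ∈ L then z (e ⟨u, h⟩) else 0
  have hx : ∀ u (h : u ∈ L), x u = z (e ⟨u, h⟩) := fun u h => dif_pos h
  have hg : ∀ u (h : u ∈ L), γ u = g (e ⟨u, h⟩) := by
    intro u h
    simp only [g, Equiv.symm_apply_apply]
  refine ⟨x, ?_, ?_, ?_, ?_⟩
  · intro u hu
    rw [hx u hu]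
    exact hz1 _
  · intro u hu v hv h
    rw [hx u hu, hx v hv] at h
    rcases lt_trichotomy (e ⟨u, hu⟩) (e ⟨v, hv⟩) with h1 | h1 | h1
    · exact absurd h.symm (hzinj _ _ h1)
    · exact congrArg Subtype.val (e.injective h1)
    · exact absurd h (hzinj _ _ h1)
  · intro u hu
    rw [hx u hu, hg u hu]
    exact hza _
  · intro u hu v hv h
    rw [hx u hu, hg u hu, hx v hv, hg v hv] at h
    rcases lt_trichotomy (e ⟨u, hu⟩) (e ⟨v, hv⟩) with h1 | h1 | h1
    · exfalso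
      apply hzc _ _ h1
      have h2 := (h.symm.add_right (g (e ⟨v, hv⟩))).sub_right (z (e ⟨u, hu⟩))
      have h3 : z (e ⟨v, hv⟩) - g (e ⟨v, hv⟩) + g (e ⟨v, hv⟩) - z (e ⟨u, hu⟩) =
        z (e ⟨v, hv⟩) - z (e ⟨u, hu⟩) := by ring
      have h4 : z (e ⟨u, hu⟩) - g (e ⟨u, hu⟩) + g (e ⟨v, hv⟩) - z (e ⟨u, hu⟩) =
        g (e ⟨v, hv⟩) - g (e ⟨u, hu⟩) := by ring
      rw [h3, h4] at h2
      exact h2
    · exact congrArg Subtype.val (e.injective h1)
    · exfalso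
      apply hzc _ _ h1
      have h2 := (h.add_right (g (e ⟨u, hu⟩))).sub_right (z (e ⟨v, hv⟩))
      have h3 : z (e ⟨u, hu⟩) - g (e ⟨u, hu⟩) + g (e ⟨u, hu⟩) - z (e ⟨v, hv⟩) =
        z (e ⟨u, hu⟩) - z (e ⟨v, hv⟩) := by ring
      have h4 : z (e ⟨v, hv⟩) - g (e ⟨v, hv⟩) + g (e ⟨u, hu⟩) - z (e ⟨v, hv⟩) =
        g (e ⟨u, hu⟩) - g (e ⟨v, hv⟩) := by ring
      rw [h3, h4] at h2
      exact h2


/-- The labels of `I` are chosen first, then the leaves become known, and then everything else is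
chosen. -/
lemma two_phase2 {V : Type} [DecidableEq V] (M t φ : ℕ) (C I : Finset V) (hI : I ⊆ C) (m : ℕ)
    (hcard : C.card + 1 + m = M) (hIC : I.card + 1 ≤ C.card) (h2 : 2 * m + 1 ≤ M) :
    ∃ e : V → ℕ, ∀ L : Finset V, L.card = m → ∀ G : V → ℤ, ∃ (e' : V → ℕ) (κ : V → ℤ),
      (∀ y ∈ I, e' y = e y) ∧ (∀ y ∈ C, t ≤ e' y ∧ e' y < t + M) ∧ Set.InjOn e' C ∧
      (∀ y ∈ C, ¬ (e' y : ℤ) ≡ φ [ZMOD (M : ℤ)]) ∧
      (∀ u ∈ L, ∀ u' ∈ L, κ u - G u ≡ κ u' - G u' [ZMOD (M : ℤ)] → u = u') ∧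
      (∀ u ∈ L, ¬ κ u ≡ G u - t [ZMOD (M : ℤ)]) ∧
      ∀ w : ℤ, w ≡ φ - t [ZMOD (M : ℤ)] ∨ (∃ y ∈ C, (e' y : ℤ) - t ≡ w [ZMOD (M : ℤ)]) ∨
        ∃ u ∈ L, κ u ≡ w [ZMOD (M : ℤ)] := by
  classical
  have hM : (0 : ℤ) < M := by omega
  obtain ⟨ζ, hζ⟩ : ∃ ζ, ζ = ((φ : ℤ) - t) % M := ⟨_, rfl⟩
  have hζ0 : 0 ≤ ζ := hζ ▸ Int.emod_nonneg _ hM.ne'
  have hζM : ζ < M := hζ ▸ Int.emod_lt_of_pos _ hM
  have hζφ : ζ ≡ (φ : ℤ) - t [ZMOD (M : ℤ)] := hζ ▸ Int.mod_modEq _ _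
  -- positions of the first children
  let i : V → ℤ := fun y => if h : y ∈ I then ((I.equivFin ⟨y, h⟩).val : ℤ) + 1 else 0
  have hi : ∀ y (h : y ∈ I), i y = ((I.equivFin ⟨y, h⟩).val : ℤ) + 1 := fun y h => dif_pos h
  have hi1 : ∀ y ∈ I, 1 ≤ i y ∧ i y ≤ I.card := by
    intro y hy
    rw [hi y hy]
    have := (I.equivFin ⟨y, hy⟩).2
    omega
  have hi2 : Set.InjOn i I := by
    intro y hy y' hy' h
    rw [mem_coe] at hy hy'
    rw [hi y hy, hi y' hy'] at h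
    have h1 : (I.equivFin ⟨y, hy⟩) = (I.equivFin ⟨y', hy'⟩) := Fin.ext (by omega)
    exact congrArg Subtype.val (I.equivFin.injective h1)
  -- the label at a position
  let lab : ℤ → ℕ := fun p => t + ((ζ + p) % M).toNat
  have hlab : ∀ p, (lab p : ℤ) = t + (ζ + p) % M := by
    intro p
    simp only [lab]
    push_cast
    rw [Int.toNat_of_nonneg (Int.emod_nonneg _ hM.ne')]
  have hlab' : ∀ p, (lab p : ℤ) - t ≡ ζ + p [ZMOD (M : ℤ)] := by
    intro p
    rw [hlab, add_sub_cancel_left]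
    exact Int.mod_modEq _ _
  refine ⟨fun y => lab (i y), ?_⟩
  intro L hL G
  obtain ⟨x, hx1, hx2, hx3, hx4⟩ := exists_colours2 L M I.card (by omega) (fun u => G u - t - ζ)
  set J := Icc ((I.card : ℤ) + 1) (M - 1) \ L.image x with hJ
  have hxsub : L.image x ⊆ Icc ((I.card : ℤ) + 1) (M - 1) := by
    intro p hp
    obtain ⟨u, hu, rfl⟩ := mem_image.1 hp
    have h3 := hx1 u hu
    have h4 : 0 < L.card := card_pos.2 ⟨u, hu⟩
    rw [mem_Icc]
    omega
  have hxc : (L.image x).card = m := by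
    rw [card_image_of_injOn (fun u hu v hv h => hx2 u hu v hv h), hL]
  have hJc : (C \ I).card = J.card := by
    rw [hJ, card_sdiff_of_subset hxsub, card_sdiff_of_subset hI, hxc, Int.card_Icc]
    omega
  obtain ⟨j, hj1, hj2⟩ := exists_inj (C \ I) J hJc.le
  set pos : V → ℤ := fun y => if y ∈ I then i y else j y with hpos
  have hposI : ∀ y ∈ I, pos y = i y := fun y hy => by simp only [hpos, if_pos hy]
  have hposn : ∀ y, y ∉ I → pos y = j y := fun y hy => by simp only [hpos, if_neg hy]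
  have hjJ : ∀ y ∈ C, y ∉ I → (I.card : ℤ) + 1 ≤ j y ∧ j y ≤ M - 1 ∧ j y ∉ L.image x := by
    intro y hy hyI
    have h := mem_sdiff.1 (hj1 y (mem_sdiff.2 ⟨hy, hyI⟩))
    rw [mem_Icc] at h
    exact ⟨h.1.1, h.1.2, h.2⟩
  have hpos1 : ∀ y ∈ C, 1 ≤ pos y ∧ pos y ≤ M - 1 := by
    intro y hy
    by_cases h : y ∈ I
    · rw [hposI y h]
      have := hi1 y h
      omega
    · rw [hposn y h]
      have := hjJ y hy h
      omega
  have hpos2 : Set.InjOn pos C := by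
    intro y hy y' hy' h
    rw [mem_coe] at hy hy'
    by_cases h1 : y ∈ I <;> by_cases h2 : y' ∈ I
    · rw [hposI y h1, hposI y' h2] at h
      exact hi2 h1 h2 h
    · rw [hposI y h1, hposn y' h2] at h
      have h3 := hi1 y h1
      have h4 := hjJ y' hy' h2
      omega
    · rw [hposn y h1, hposI y' h2] at h
      have h3 := hi1 y' h2
      have h4 := hjJ y hy h1
      omega
    · rw [hposn y h1, hposn y' h2] at h
      exact hj2 (mem_sdiff.2 ⟨hy, h1⟩) (mem_sdiff.2 ⟨hy', h2⟩) h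
  have hpos3 : ∀ y ∈ C, pos y ∉ L.image x := by
    intro y hy
    by_cases h : y ∈ I
    · rw [hposI y h]
      intro h1
      have h2 := hxsub h1
      rw [mem_Icc] at h2
      have := hi1 y h
      omega
    · rw [hposn y h]
      exact (hjJ y hy h).2.2
  have hcov : C.image pos ∪ L.image x = Icc (1 : ℤ) (M - 1) := by
    apply eq_of_subset_of_card_le
    · intro p hp
      rcases mem_union.1 hp with h | h
      · obtain ⟨y, hy, rfl⟩ := mem_image.1 h
        rw [mem_Icc]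
        exact hpos1 y hy
      · have := hxsub h
        rw [mem_Icc] at this ⊢
        omega
    · rw [card_union_of_disjoint, card_image_of_injOn hpos2, hxc, Int.card_Icc]
      · omega
      · rw [disjoint_left]
        intro p hp
        obtain ⟨y, hy, rfl⟩ := mem_image.1 hp
        exact hpos3 y hy
  refine ⟨fun y => lab (pos y), fun u => ζ + x u, ?_, ?_, ?_, ?_, ?_, ?_, ?_⟩
  · intro y hy
    simp only
    rw [hposI y hy]
  · intro y _
    have h1 := hlab (pos y)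
    have h3 := Int.emod_nonneg (ζ + pos y) hM.ne'
    have h4 := Int.emod_lt_of_pos (ζ + pos y) hM
    simp only
    omega
  · intro y hy y' hy' h
    rw [mem_coe] at hy hy'
    simp only at h
    apply hpos2 hy hy'
    have h1 := hlab' (pos y)
    rw [h] at h1
    have h3 := h1.symm.trans (hlab' (pos y'))
    have h4 := h3.add_left_cancel' ζ
    have h5 := hpos1 y hy
    have h6 := hpos1 y' hy'
    exact int_eq_of_modEq h4 (by omega) (by omega)
  · intro y hy h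
    have h1 := hlab' (pos y)
    have h3 := (h.sub_right (t : ℤ)).symm.trans h1
    have h4 := (hζφ.trans h3)
    have h5 : (0 : ℤ) ≡ pos y [ZMOD (M : ℤ)] := by
      have h6 : ζ + 0 ≡ ζ + pos y [ZMOD (M : ℤ)] := by rw [add_zero]; exact h4
      exact h6.add_left_cancel' ζ
    have h6 := hpos1 y hy
    have h7 := int_eq_of_modEq h5 (by omega) (by omega)
    omega
  · intro u hu u' hu' h
    apply hx4 u hu u' hu'
    have h1 := h.add_right (t : ℤ)
    have h3 : x u - (G u - t - ζ) = ζ + x u - G u + t := by ring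
    have h4 : x u' - (G u' - t - ζ) = ζ + x u' - G u' + t := by ring
    rw [h3, h4]
    exact h1
  · intro u hu h
    apply hx3 u hu
    have h1 := h.sub_right ζ
    have h3 : ζ + x u - ζ = x u := by ring
    rw [h3] at h1
    exact h1
  · intro w
    obtain ⟨q, hq⟩ : ∃ q, q = (w - ζ) % (M : ℤ) := ⟨_, rfl⟩
    have hq0 : 0 ≤ q := hq ▸ Int.emod_nonneg _ hM.ne'
    have hqM : q < M := hq ▸ Int.emod_lt_of_pos _ hM
    have hqw : ζ + q ≡ w [ZMOD (M : ℤ)] := by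
      have h1 : q ≡ w - ζ [ZMOD (M : ℤ)] := by
        rw [hq]
        exact Int.mod_modEq _ _
      have h3 := h1.add_left ζ
      have h4 : ζ + (w - ζ) = w := by ring
      rwa [h4] at h3
    rcases hq0.eq_or_lt with h | h
    · left
      rw [← h, add_zero] at hqw
      exact hqw.symm.trans hζφ
    · right
      have h1 : q ∈ C.image pos ∪ L.image x := by
        rw [hcov, mem_Icc]
        omega
      rcases mem_union.1 h1 with h3 | h3
      · obtain ⟨y, hy, h4⟩ := mem_image.1 h3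
        left
        refine ⟨y, hy, ?_⟩
        have h5 := hlab' (pos y)
        rw [h4] at h5
        simp only
        rw [h4]
        exact h5.trans hqw
      · obtain ⟨u, hu, h4⟩ := mem_image.1 h3
        right
        refine ⟨u, hu, ?_⟩
        simp only
        rw [h4]
        exact hqw


end Pool.Agent.Helper80.GH2
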