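import Pool.Agent.Helper80.GH.Dense

/-!
# Decompositions of `K_{m,n}` from orbits of columns
-/

namespace Pool.Agent.Helper80.GH2

open Finset Pool.Agent.Helper19.GH Pool.Agent.Helper80.GH

variable {V : Type} [Fintype V] [DecidableEq V]

/-- A decomposition of `K_{n,n}` from a family of copies of `T` indexed by `I`, the vertices with
property `A` are placed in rows, the others in columns, every cell is covered, and the number of
copies is right. -/
lemma decomposes_of_cells_mn {m n : ℕ} (T : SimpleGraph V) (v : V) (par : V → V)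
    (hn : Fintype.card V = n + 1) (hpar : ∀ x, x ≠ v → T.Adj x (par x))
    (A : V → Prop) (hA : ∀ u w, T.Adj u w → (A u ↔ ¬ A w))
    {I R C : Type} [Fintype I] [Fintype R] [Fintype C] (hI : Fintype.card I = m)
    (hR : Fintype.card R = m) (hC : Fintype.card C = n)
    (row : I → V → R) (col : I → V → C)
    (hrow : ∀ k a a', A a → A a' → row k a = row k a' → a = a')
    (hcol : ∀ k b b', ¬ A b → ¬ A b' → col k b = col k b' → b = b')
    (hcell : ∀ r c, ∃ k a b, T.Adj a b ∧ A a ∧ ¬ A b ∧ row k a = r ∧ col k b = c)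
    (hedge : ∀ u w, T.Adj u w → (u ≠ v ∧ par u = w) ∨ (w ≠ v ∧ par w = u)) :
    Decomposes T (completeBipartiteGraph (Fin m) (Fin n)) := by
  classical
  obtain ⟨eI⟩ : Nonempty (Fin m ≃ I) := ⟨Fintype.equivOfCardEq (by simp [hI])⟩
  obtain ⟨eR⟩ : Nonempty (R ≃ Fin m) := ⟨Fintype.equivOfCardEq (by simp [hR])⟩
  obtain ⟨eC⟩ : Nonempty (C ≃ Fin n) := ⟨Fintype.equivOfCardEq (by simp [hC])⟩
  -- the cell of the edge `{x, par x}` in the copy `k`
  let cell : I × {x : V // x ≠ v} → R × C := fun p =>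
    if A p.2.1 then (row p.1 p.2.1, col p.1 (par p.2.1)) else (row p.1 (par p.2.1), col p.1 p.2.1)
  have hsurj : Function.Surjective cell := by
    rintro ⟨r, c⟩
    obtain ⟨k, a, b, hab, ha, hb, hr, hc⟩ := hcell r c
    rcases hedge a b hab with ⟨h1, h2⟩ | ⟨h1, h2⟩
    · refine ⟨(k, ⟨a, h1⟩), ?_⟩
      simp only [cell]
      rw [if_pos ha, h2, hr, hc]
    · refine ⟨(k, ⟨b, h1⟩), ?_⟩
      simp only [cell]
      rw [if_neg hb, h2, hr, hc]
  have hcard : Fintype.card (I × {x : V // x ≠ v}) = Fintype.card (R × C) := by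
    rw [Fintype.card_prod, Fintype.card_prod, hI, hR, hC, Fintype.card_subtype_compl, hn]
    simp
  have hinj : Function.Injective cell :=
    ((Fintype.bijective_iff_surjective_and_card cell).2 ⟨hsurj, hcard⟩).1
  have huniq : ∀ k k' a b a' b', T.Adj a b → A a → ¬ A b → T.Adj a' b' → A a' → ¬ A b' →
      row k a = row k' a' → col k b = col k' b' → k = k' := by
    intro k k' a b a' b' hab ha hb hab' ha' hb' h1 h2
    have h3 : ∃ x : {x : V // x ≠ v}, cell (k, x) = (row k a, col k b) := by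
      rcases hedge a b hab with ⟨h3, h4⟩ | ⟨h3, h4⟩
      · refine ⟨⟨a, h3⟩, ?_⟩
        simp only [cell]
        rw [if_pos ha, h4]
      · refine ⟨⟨b, h3⟩, ?_⟩
        simp only [cell]
        rw [if_neg hb, h4]
    have h3' : ∃ x : {x : V // x ≠ v}, cell (k', x) = (row k' a', col k' b') := by
      rcases hedge a' b' hab' with ⟨h3, h4⟩ | ⟨h3, h4⟩
      · refine ⟨⟨a', h3⟩, ?_⟩
        simp only [cell]
        rw [if_pos ha', h4]
      · refine ⟨⟨b', h3⟩, ?_⟩
        simp only [cell]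
        rw [if_neg hb', h4]
    obtain ⟨x, hx⟩ := h3
    obtain ⟨x', hx'⟩ := h3'
    have h4 : cell (k, x) = cell (k', x') := by rw [hx, hx', h1, h2]
    exact congrArg Prod.fst (hinj h4)
  let φ : Fin m → V → Fin m ⊕ Fin n := fun i u =>
    if A u then Sum.inl (eR (row (eI i) u)) else Sum.inr (eC (col (eI i) u))
  have hφe : ∀ i u, A u → φ i u = Sum.inl (eR (row (eI i) u)) := fun i u h => if_pos h
  have hφo : ∀ i u, ¬ A u → φ i u = Sum.inr (eC (col (eI i) u)) := fun i u h => if_neg h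
  have key : ∀ (a : Fin m) (b : Fin n), ∃! i, ∃ u w, T.Adj u w ∧ φ i u = Sum.inl a ∧ φ i w = Sum.inr b := by
    intro r c
    obtain ⟨k, a, b, hab, ha, hb, hr, hc⟩ := hcell (eR.symm r) (eC.symm c)
    refine ⟨eI.symm k, ⟨a, b, hab, ?_, ?_⟩, ?_⟩
    · rw [hφe _ _ ha, Equiv.apply_symm_apply, hr, Equiv.apply_symm_apply]
    · rw [hφo _ _ hb, Equiv.apply_symm_apply, hc, Equiv.apply_symm_apply]
    · rintro i ⟨u, w, huw, h1, h2⟩
      have hu : A u := by
        by_contra hu
        rw [hφo _ _ hu] at h1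
        exact absurd h1 (by simp)
      have hw : ¬ A w := by
        intro hw
        rw [hφe _ _ hw] at h2
        exact absurd h2 (by simp)
      rw [hφe _ _ hu, Sum.inl.injEq] at h1
      rw [hφo _ _ hw, Sum.inr.injEq] at h2
      have h3 := huniq (eI i) k u w a b huw hu hw hab ha hb
        (by rw [hr, ← h1, Equiv.symm_apply_apply]) (by rw [hc, ← h2, Equiv.symm_apply_apply])
      rw [← h3, Equiv.symm_apply_apply]
  refine ⟨m, φ, ?_, ?_, ?_⟩
  · intro i u w huw
    by_cases hu : A u <;> by_cases hw : A w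
    · rw [hφe _ _ hu, hφe _ _ hw, Sum.inl.injEq] at huw
      exact hrow _ u w hu hw (eR.injective huw)
    · rw [hφe _ _ hu, hφo _ _ hw] at huw
      exact absurd huw (by simp)
    · rw [hφo _ _ hu, hφe _ _ hw] at huw
      exact absurd huw (by simp)
    · rw [hφo _ _ hu, hφo _ _ hw, Sum.inr.injEq] at huw
      exact hcol _ u w hu hw (eC.injective huw)
  · intro i u w huw
    by_cases hu : A u
    · rw [hφe _ _ hu, hφo _ _ ((hA u w huw).1 hu)]
      simp [completeBipartiteGraph]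
    · have hw : A w := by
        by_contra hw
        exact hu ((hA u w huw).2 hw)
      rw [hφo _ _ hu, hφe _ _ hw]
      simp [completeBipartiteGraph]
  · intro x y hxy
    rcases x with a | a <;> rcases y with b | b
    · simp [completeBipartiteGraph] at hxy
    · exact key a b
    · obtain ⟨i, ⟨u, w, huw, h1, h2⟩, h3⟩ := key b a
      refine ⟨i, ⟨w, u, huw.symm, h2, h1⟩, ?_⟩
      rintro j ⟨u', w', huw', h1', h2'⟩
      exact h3 j ⟨w', u', huw'.symm, h2', h1'⟩
    · simp [completeBipartiteGraph] at hxy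

/-- Decomposition of `K_{n,n}` from a labelling of one class and a partition of the columns into
orbits of sizes dividing `n`. -/
lemma decomposes_orbits_mn {m n : ℕ} (hm0 : 0 < m) (hn0 : 0 < n) (T : SimpleGraph V) (v : V) (par : V → V)
    (hn : Fintype.card V = n + 1) (hpar : ∀ x, x ≠ v → T.Adj x (par x))
    (hedge : ∀ u w, T.Adj u w → (u ≠ v ∧ par u = w) ∨ (w ≠ v ∧ par w = u))
    (A : V → Prop) (hA : ∀ u w, T.Adj u w → (A u ↔ ¬ A w))
    (f : V → ℕ) (hf : ∀ a, A a → f a < m) (hfi : ∀ a a', A a → A a' → f a = f a' → a = a')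
    (Z : Finset V) (M : V → ℕ) (hM : ∀ b ∈ Z, M b ∣ m) (hsum : ∑ b ∈ Z, M b = n)
    (g : V → V) (hg : ∀ u, ¬ A u → g u ∈ Z) (o : V → ℤ)
    (ho : ∀ u u', ¬ A u → ¬ A u' → g u = g u' → o u ≡ o u' [ZMOD (M (g u) : ℤ)] → u = u')
    (hc : ∀ b ∈ Z, ∀ κ : ℤ, ∃ u a, ¬ A u ∧ A a ∧ T.Adj a u ∧ g u = b ∧
      (f a : ℤ) - o u ≡ κ [ZMOD (M b : ℤ)]) :
    Decomposes T (completeBipartiteGraph (Fin m) (Fin n)) := by
  classical
  have : NeZero m := ⟨hm0.ne'⟩
  have hMpos : ∀ b ∈ Z, 0 < M b := fun b hb => Nat.pos_of_dvd_of_pos (hM b hb) hm0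
  have hne : ∀ b : {b // b ∈ Z}, NeZero (M b.1) := fun b => ⟨(hMpos b.1 b.2).ne'⟩
  have hcolcard : Fintype.card ((b : {b // b ∈ Z}) × ZMod (M b.1)) = n := by
    rw [Fintype.card_sigma]
    rw [sum_congr rfl (fun b _ => ZMod.card (M b.1))]
    rw [← hsum]
    exact (sum_coe_sort Z M)
  have hnonempty : Nonempty ((b : {b // b ∈ Z}) × ZMod (M b.1)) := by
    rw [← Fintype.card_pos_iff, hcolcard]
    exact hn0
  let col : ZMod m → V → (b : {b // b ∈ Z}) × ZMod (M b.1) := fun k u =>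
    if h : ¬ A u then ⟨⟨g u, hg u h⟩, (k.cast : ZMod (M (g u))) + ((o u : ℤ) : ZMod (M (g u)))⟩
      else Classical.choice hnonempty
  have hcol : ∀ k u (h : ¬ A u), col k u =
      ⟨⟨g u, hg u h⟩, (k.cast : ZMod (M (g u))) + ((o u : ℤ) : ZMod (M (g u)))⟩ :=
    fun k u h => dif_pos h
  refine decomposes_of_cells_mn (I := ZMod m) (R := ZMod m)
    (C := (b : {b // b ∈ Z}) × ZMod (M b.1)) T v par hn hpar A hA (ZMod.card m) (ZMod.card m)
    hcolcard (fun k x => k + (f x : ZMod m)) col ?_ ?_ ?_ hedge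
  · intro k a a' ha ha' h
    have h1 : (f a : ZMod m) = (f a' : ZMod m) := add_left_cancel h
    rw [ZMod.natCast_eq_natCast_iff] at h1
    exact hfi a a' ha ha' (Nat.ModEq.eq_of_lt_of_lt h1 (hf a ha) (hf a' ha'))
  · intro k b b' hb hb' h
    rw [hcol k b hb, hcol k b' hb', Sigma.mk.injEq] at h
    have h1 : g b = g b' := congrArg Subtype.val h.1
    apply ho b b' hb hb' h1
    have h2 : ((k.cast : ZMod (M (g b))) + ((o b : ℤ) : ZMod (M (g b)))) =
        ((k.cast : ZMod (M (g b))) + ((o b' : ℤ) : ZMod (M (g b)))) := by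
      have h3 := h.2
      have key : ∀ (c : V) (hc : g b = c) (x : ZMod (M (g b))),
          HEq x ((k.cast : ZMod (M c)) + ((o b' : ℤ) : ZMod (M c))) →
          x = ((k.cast : ZMod (M (g b))) + ((o b' : ℤ) : ZMod (M (g b)))) := by
        intro c hc x hx
        subst hc
        exact eq_of_heq hx
      exact key (g b') h1 _ h3
    have h4 := add_left_cancel h2
    exact (ZMod.intCast_eq_intCast_iff _ _ _).1 h4
  · rintro s ⟨⟨b, hb⟩, j⟩
    have hδn : M b ∣ m := hM b hb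
    have hneb : NeZero (M b) := ⟨(hMpos b hb).ne'⟩
    obtain ⟨u, a, hu, ha, hadj, hgu, hκ⟩ := hc b hb ((ZMod.castHom hδn (ZMod (M b)) s - j).cast : ℤ)
    refine ⟨s - (f a : ZMod m), a, u, hadj, ha, hu, by ring, ?_⟩
    rw [hcol _ u hu]
    subst hgu
    rw [Sigma.mk.injEq]
    refine ⟨rfl, heq_of_eq ?_⟩
    have h3 : ((s - (f a : ZMod m)).cast : ZMod (M (g u))) =
        ZMod.castHom hδn (ZMod (M (g u))) (s - (f a : ZMod m)) := rfl
    have h4 := (ZMod.intCast_eq_intCast_iff _ _ _).2 hκ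
    rw [ZMod.intCast_cast, ZMod.cast_id] at h4
    push_cast at h4
    rw [h3, map_sub, map_natCast]
    linear_combination (-1 : ZMod (M (g u))) * h4

/-- From stars to the decomposition, cyclic version. -/
lemma decomposes_starsC_mn {m n : ℕ} (hm0 : 0 < m) (hn0 : 0 < n) (T : SimpleGraph V) [DecidableRel T.Adj] (r : V)
    (par : V → V) (d : V → ℕ) (hn : Fintype.card V = n + 1)
    (hpar : ∀ x, x ≠ r → T.Adj x (par x) ∧ d x = d (par x) + 1)
    (hedge : ∀ u w, T.Adj u w → (u ≠ r ∧ par u = w) ∨ (w ≠ r ∧ par w = u))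
    (hA : ∀ u w, T.Adj u w → (Even (d u) ↔ ¬ Even (d w)))
    (hr : Even (d r)) (K Λ : Finset V) (hK : ∀ b ∈ K, ¬ Even (d b)) (hΛ : ∀ b ∈ Λ, ¬ Even (d b))
    (hcov : ∀ b, ¬ Even (d b) → b ∈ K ∨ b ∈ Λ) (hKΛ : Disjoint K Λ)
    (M t : V → ℕ) (hMn : ∀ b ∈ K, M b ∣ m) (L : V → Finset V) (hL1 : ∀ b ∈ K, L b ⊆ Λ)
    (hL2 : ∀ b ∈ K, ∀ b' ∈ K, b ≠ b' → Disjoint (L b) (L b'))
    (hcount : ∑ b ∈ K, M b + Λ.card = n + ∑ b ∈ K, (L b).card)
    (f : V → ℕ) (hfn : ∀ a, Even (d a) → f a < m)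
    (hf : ∀ a a', Even (d a) → Even (d a') → f a = f a' → a = a')
    (hstar : ∀ b ∈ K, StarC r par (M b) (t b) (L b) f b) :
    Decomposes T (completeBipartiteGraph (Fin m) (Fin n)) := by
  classical
  have hne : ∀ b, ¬ Even (d b) → b ≠ r := by
    rintro b hb rfl
    exact hb hr
  have hparity : ∀ x, x ≠ r → (Even (d x) ↔ ¬ Even (d (par x))) := fun x hx =>
    hA x (par x) (hpar x hx).1
  have hκ : ∀ b, ∃ κ : V → ℤ, b ∈ K →
      (∀ u ∈ L b, ∀ u' ∈ L b, κ u - f (par u) ≡ κ u' - f (par u') [ZMOD (M b : ℤ)] → u = u') ∧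
      (∀ u ∈ L b, ¬ κ u ≡ f (par u) - t b [ZMOD (M b : ℤ)]) ∧
      ∀ w : ℤ, w ≡ f (par b) - t b [ZMOD (M b : ℤ)] ∨
        (∃ y ∈ ch r par b, (f y : ℤ) - t b ≡ w [ZMOD (M b : ℤ)]) ∨
        ∃ u ∈ L b, κ u ≡ w [ZMOD (M b : ℤ)] := by
    intro b
    by_cases hb : b ∈ K
    · obtain ⟨_, _, _, κ, h⟩ := hstar b hb
      exact ⟨κ, fun _ => h⟩
    · exact ⟨0, fun h => absurd h hb⟩
  choose κ hκ using hκ
  set U := K.biUnion L with hU
  have hUΛ : U ⊆ Λ := by
    intro u hu
    obtain ⟨b, hb, h⟩ := mem_biUnion.1 hu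
    exact hL1 b hb h
  set Z := K ∪ (Λ \ U) with hZ
  have hUK : ∀ u ∈ U, u ∉ K := fun u hu h => disjoint_left.1 hKΛ h (hUΛ hu)
  have hZU : ∀ u ∈ U, u ∉ Z := by
    intro u hu h
    rcases mem_union.1 h with h1 | h1
    · exact hUK u hu h1
    · exact (mem_sdiff.1 h1).2 hu
  have hZodd : ∀ b ∈ Z, ¬ Even (d b) := by
    intro b hb
    rcases mem_union.1 hb with h1 | h1
    · exact hK b h1
    · exact hΛ b (mem_sdiff.1 h1).1
  have hcases : ∀ u, ¬ Even (d u) → u ∈ Z ∨ u ∈ U := by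
    intro u hu
    rcases hcov u hu with h | h
    · exact Or.inl (mem_union_left _ h)
    · by_cases h1 : u ∈ U
      · exact Or.inr h1
      · exact Or.inl (mem_union_right _ (mem_sdiff.2 ⟨h, h1⟩))
  have hcen : ∀ u, u ∈ U → ∃ b ∈ K, u ∈ L b := fun u hu => mem_biUnion.1 hu
  let W : V → ℕ := fun b => if b ∈ K then M b else 1
  have hWK : ∀ b ∈ K, W b = M b := fun b hb => if_pos hb
  have hWn : ∀ b, b ∉ K → W b = 1 := fun b hb => if_neg hb
  let g : V → V := fun u => if h : u ∈ U then (hcen u h).choose else u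
  have hgZ : ∀ u, u ∉ U → g u = u := fun u hu => dif_neg hu
  have hgU : ∀ u ∈ U, g u ∈ K ∧ u ∈ L (g u) := by
    intro u hu
    have h1 := (hcen u hu).choose_spec
    simp only [g, dif_pos hu]
    exact h1
  have hgL : ∀ b ∈ K, ∀ u ∈ L b, u ∈ U ∧ g u = b := by
    intro b hb u hu
    have h1 : u ∈ U := mem_biUnion.2 ⟨b, hb, hu⟩
    refine ⟨h1, ?_⟩
    by_contra h2
    exact disjoint_left.1 (hL2 b hb (g u) (hgU u h1).1 (Ne.symm h2)) hu (hgU u h1).2
  let o : V → ℤ := fun u => if u ∈ U then (f (par u) : ℤ) - κ (g u) u else (t u : ℤ)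
  have hoU : ∀ u ∈ U, o u = (f (par u) : ℤ) - κ (g u) u := fun u hu => if_pos hu
  have hon : ∀ u, u ∉ U → o u = t u := fun u hu => if_neg hu
  have hodd : ∀ u, ¬ Even (d u) → Even (d (par u)) := by
    intro u hu
    have := hparity u (hne u hu)
    tauto
  have hd1 : Disjoint K (Λ \ U) := hKΛ.mono_right sdiff_subset
  refine decomposes_orbits_mn hm0 hn0 T r par hn (fun x hx => (hpar x hx).1) hedge (fun x => Even (d x))
    hA f hfn hf Z W ?_ ?_ g ?_ o ?_ ?_
  · intro b hb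
    by_cases h : b ∈ K
    · rw [hWK b h]
      exact hMn b h
    · rw [hWn b h]
      exact one_dvd _
  · -- the number of columns
    rw [hZ, sum_union hd1]
    have h1 : ∑ b ∈ K, W b = ∑ b ∈ K, M b := sum_congr rfl fun b hb => hWK b hb
    have h2 : ∑ b ∈ Λ \ U, W b = (Λ \ U).card := by
      rw [card_eq_sum_ones]
      exact sum_congr rfl fun b hb => hWn b (disjoint_right.1 hd1 hb)
    have h3 : U.card = ∑ b ∈ K, (L b).card := card_biUnion (fun b hb b' hb' hbb =>
      hL2 b hb b' hb' hbb)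
    have h4 := card_le_card hUΛ
    rw [h1, h2, card_sdiff_of_subset hUΛ]
    omega
  · intro u hu
    rcases hcases u hu with h | h
    · rw [hgZ u (fun h' => hZU u h' h)]
      exact h
    · exact mem_union_left _ (hgU u h).1
  · -- the columns of the vertices with the same centre
    have hmix : ∀ u u', u ∈ U → u' ∈ Z → g u = g u' →
        ¬ o u ≡ o u' [ZMOD (W (g u) : ℤ)] := by
      intro u u' h h' hgg hoo
      have h1 : u' ∉ U := fun h'' => hZU u' h'' h'
      rw [hgZ u' h1] at hgg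
      have h2 := hgU u h
      rw [hoU u h, hon u' h1, hWK _ h2.1, ← hgg] at hoo
      apply (hκ _ h2.1).2.1 u h2.2
      have h3 := (hoo.sub_left ((f (par u) : ℤ)))
      have h4 : (f (par u) : ℤ) - ((f (par u) : ℤ) - κ (g u) u) = κ (g u) u := by ring
      rw [h4] at h3
      exact h3
    intro u u' hu hu' hgg hoo
    rcases hcases u hu with h | h <;> rcases hcases u' hu' with h' | h'
    · rw [hgZ u (fun h'' => hZU u h'' h), hgZ u' (fun h'' => hZU u' h'' h')] at hgg
      exact hgg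
    · rw [hgg] at hoo
      exact absurd hoo.symm (hmix u' u h' h hgg.symm)
    · exact absurd hoo (hmix u u' h h' hgg)
    · have h2 := hgU u h
      have h2' := hgU u' h'
      rw [hoU u h, hoU u' h', ← hgg, hWK _ h2.1] at hoo
      rw [← hgg] at h2'
      apply (hκ _ h2.1).1 u h2.2 u' h2'.2
      have h3 := hoo.neg
      have h4 : -((f (par u) : ℤ) - κ (g u) u) = κ (g u) u - f (par u) := by ring
      have h5 : -((f (par u') : ℤ) - κ (g u) u') = κ (g u) u' - f (par u') := by ring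
      rw [h4, h5] at h3
      exact h3
  · intro b hb w
    have hbodd := hZodd b hb
    have hbU : b ∉ U := fun h' => hZU b h' hb
    have hbr := hne b hbodd
    by_cases h : b ∈ K
    · rw [hWK b h]
      rcases (hκ b h).2.2 w with h1 | ⟨y, hy, h1⟩ | ⟨u, hu, h1⟩
      · refine ⟨b, par b, hbodd, hodd b hbodd, (hpar b hbr).1.symm, hgZ b hbU, ?_⟩
        rw [hon b hbU]
        exact h1.symm
      · rw [mem_ch] at hy
        have h3 := (hpar y hy.1).1
        rw [hy.2] at h3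
        refine ⟨b, y, hbodd, ?_, h3, hgZ b hbU, ?_⟩
        · have := hA y b h3
          tauto
        · rw [hon b hbU]
          exact h1
      · obtain ⟨h2, h3⟩ := hgL b h u hu
        have h4 := hΛ u (hL1 b h hu)
        refine ⟨u, par u, h4, hodd u h4, (hpar u (hne u h4)).1.symm, h3, ?_⟩
        rw [hoU u h2, h3]
        have h5 : (f (par u) : ℤ) - (f (par u) - κ b u) = κ b u := by ring
        rw [h5]
        exact h1
    · rw [hWn b h]
      refine ⟨b, par b, hbodd, hodd b hbodd, (hpar b hbr).1.symm, hgZ b hbU, ?_⟩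
      exact Int.modEq_one


end Pool.Agent.Helper80.GH2
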